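import Pool.Agent.W637.PG.EG2

/-!
# A vector of weight two for an operator with the eigenvalues `1`, `0`, `-1`
-/

set_option autoImplicit false

open Matrix Finset Module

namespace Q43.HTM

open Pool.Agent.W544.PG Pool.Agent.W637.PG

theorem eg2 {n r : ℕ} (T : HS n) (c : Fin n → Fin r) (i : Fin r) (p : ℕ) (hQ : BD c T.Q)
    {x : Matrix (Fin n) (Fin n) ℂ} (hx : BD c x) (hcube : x * x * x = x)
    (hskew : xᵀ * mC T.Q + mC T.Q * x = 0)
    (hp : ∑ a with c a = i, (x * x) a a = 2 * (p : ℂ)) (hp2 : 2 ≤ p) :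
    ∃ Z : Matrix (Fin n) (Fin n) ℂ, Z ≠ 0 ∧ Zᵀ * mC T.Q + mC T.Q * Z = 0 ∧
      (∀ a b, Z a b ≠ 0 → c a = i ∧ c b = i) ∧ x * Z - Z * x = (2 : ℂ) • Z := by
  set Q := mC T.Q with hQd
  have hQs : Qᵀ = Q := by
    rw [hQd]
    unfold mC
    rw [← Matrix.transpose_map, T.symm]
  have hQb : BD c Q := by
    intro a b h
    have := hQ a b h
    rw [hQd]
    simp [mC, this]
  have hdet : Q.det ≠ 0 := detC_ne T
  have hunit : IsUnit Q.det := isUnit_iff_ne_zero.mpr hdet
  have h4 : x * x * (x * x) = x * x := by rw [← Matrix.mul_assoc, hcube]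
  have hsk : xᵀ * Q = -(Q * x) := by
    exact eq_neg_of_add_eq_zero_left hskew
  set E := Ec c i with hE
  have hEx : E * x = x * E := Ec_comm c i x hx
  have hEQ : E * Q = Q * E := Ec_comm c i Q hQb
  have hEE : E * E = E := Ec_sq c i
  have hET : Eᵀ = E := by rw [hE]; unfold Ec; rw [Matrix.diagonal_transpose]
  -- trace of the block of `x`
  have htr : (x * E).trace = 0 := by
    have h1 : (x * E).trace = -(x * E).trace := by
      calc (x * E).trace = ((x * E)ᵀ).trace := (Matrix.trace_transpose _).symm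
        _ = (E * xᵀ).trace := by rw [Matrix.transpose_mul, hET]
        _ = (E * (xᵀ * (Q * Q⁻¹))).trace := by rw [Matrix.mul_nonsing_inv Q hunit, Matrix.mul_one]
        _ = (E * (-(Q * x) * Q⁻¹)).trace := by rw [← Matrix.mul_assoc xᵀ, hsk]
        _ = -((E * Q) * x * Q⁻¹).trace := by
            rw [← Matrix.trace_neg]; congr 1
            simp only [Matrix.mul_assoc, Matrix.neg_mul, Matrix.mul_neg]
        _ = -((Q * (x * E)) * Q⁻¹).trace := by
            rw [hEQ, Matrix.mul_assoc Q E x, hEx]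
        _ = -(Q⁻¹ * (Q * (x * E))).trace := by rw [Matrix.trace_mul_comm]
        _ = -(x * E).trace := by
            rw [← Matrix.mul_assoc, Matrix.nonsing_inv_mul Q hunit, Matrix.one_mul]
    have h2 : (2 : ℂ) * (x * E).trace = 0 := by linear_combination h1
    simpa using h2
  set M := x * x + x with hM
  have hEM : E * M = M * E := by
    rw [hM, Matrix.mul_add, Matrix.add_mul, ← Matrix.mul_assoc, hEx, Matrix.mul_assoc, hEx,
      ← Matrix.mul_assoc]
  have hMM : M * M = (2 : ℂ) • M := by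
    rw [hM, Matrix.mul_add, Matrix.add_mul, Matrix.add_mul, h4, hcube, ← Matrix.mul_assoc, hcube,
      two_smul]
    abel
  have hxM : x * M = M := by
    rw [hM, Matrix.mul_add, ← Matrix.mul_assoc, hcube, add_comm]
  set P := (1 / 2 : ℂ) • (M * E) with hP
  have hPP : P * P = P := by
    rw [hP, smul_mul_smul_comm]
    have h5 : M * E * (M * E) = (2 : ℂ) • (M * E) := by
      calc M * E * (M * E) = M * (E * M) * E := by simp only [Matrix.mul_assoc]
        _ = (M * M) * (E * E) := by rw [hEM]; simp only [Matrix.mul_assoc]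
        _ = (2 : ℂ) • (M * E) := by rw [hMM, hEE, smul_mul_assoc]
    rw [h5, smul_smul]
    norm_num
  have hPt : P.trace = (p : ℂ) := by
    have h6 : (x * x * E).trace = 2 * (p : ℂ) := by rw [trace_Ec]; exact hp
    rw [hP, Matrix.trace_smul, hM, Matrix.add_mul, Matrix.trace_add, htr, h6]
    simp
  have hxP : x * P = P := by
    rw [hP, mul_smul_comm, ← Matrix.mul_assoc, hxM]
  have hEP : E * P = P := by
    rw [hP, mul_smul_comm, ← Matrix.mul_assoc, hEM, Matrix.mul_assoc, hEE]
  obtain ⟨A, B, hAB, hBA⟩ := fac P hPP hPt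
  have hPA : P * A = A := by rw [← hAB, Matrix.mul_assoc, hBA, Matrix.mul_one]
  have hxA : x * A = A := by
    calc x * A = x * (P * A) := by rw [hPA]
      _ = (x * P) * A := by rw [Matrix.mul_assoc]
      _ = A := by rw [hxP, hPA]
  have hEA : E * A = A := by
    calc E * A = E * (P * A) := by rw [hPA]
      _ = (E * P) * A := by rw [Matrix.mul_assoc]
      _ = A := by rw [hEP, hPA]
  -- the skew form
  set z0 : Fin p := ⟨0, by omega⟩ with hz0
  set z1 : Fin p := ⟨1, by omega⟩ with hz1
  have h01 : z0 ≠ z1 := by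
    intro h
    have := congrArg Fin.val h
    simp [hz0, hz1] at this
  set J : Matrix (Fin p) (Fin p) ℂ := Matrix.of fun a b =>
    if a = z0 ∧ b = z1 then 1 else if a = z1 ∧ b = z0 then -1 else 0 with hJ
  have hJT : Jᵀ = -J := by
    ext a b
    simp only [hJ, Matrix.transpose_apply, Matrix.neg_apply, Matrix.of_apply]
    by_cases ha0 : a = z0
    · have ha1 : ¬ a = z1 := fun h => h01 (ha0.symm.trans h)
      by_cases hb1 : b = z1
      · have hb0 : ¬ b = z0 := fun h => h01 (h.symm.trans hb1)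
        simp [ha0, hb1, h01, h01.symm]
      · simp [ha0, hb1, h01]
    · by_cases ha1 : a = z1
      · by_cases hb0 : b = z0
        · simp [ha1, hb0, h01, h01.symm]
        · simp [ha1, hb0, h01.symm]
      · simp [ha0, ha1]
  have hJ01 : J z0 z1 = 1 := by simp [hJ]
  set Z := A * J * Aᵀ * Q with hZ
  refine ⟨Z, ?_, ?_, ?_, ?_⟩
  · intro h0
    have h7 : B * (Z * Q⁻¹) * Bᵀ = J := by
      have h8 : Z * Q⁻¹ = A * J * Aᵀ := by
        rw [hZ, Matrix.mul_assoc, Matrix.mul_nonsing_inv Q hunit, Matrix.mul_one]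
      have h9 : Aᵀ * Bᵀ = 1 := by rw [← Matrix.transpose_mul, hBA, Matrix.transpose_one]
      calc B * (Z * Q⁻¹) * Bᵀ = B * (A * J * Aᵀ) * Bᵀ := by rw [h8]
        _ = (B * A) * J * (Aᵀ * Bᵀ) := by simp only [Matrix.mul_assoc]
        _ = J := by rw [hBA, h9, Matrix.one_mul, Matrix.mul_one]
    rw [h0, Matrix.zero_mul, Matrix.mul_zero, Matrix.zero_mul] at h7
    rw [← h7] at hJ01
    simp at hJ01
  · have h10 : Zᵀ = Q * (A * (-J) * Aᵀ) := by
      rw [hZ, Matrix.transpose_mul, Matrix.transpose_mul, Matrix.transpose_mul, hQs, hJT,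
        Matrix.transpose_transpose, Matrix.mul_assoc A]
    rw [h10, hZ]
    simp only [Matrix.mul_assoc, Matrix.neg_mul, Matrix.mul_neg]
    abel
  · have hEZ : E * Z = Z := by
      calc E * Z = (E * A) * J * Aᵀ * Q := by rw [hZ]; simp only [Matrix.mul_assoc]
        _ = Z := by rw [hEA]
    have hZE : Z * E = Z := by
      calc Z * E = A * J * (Aᵀ * (Q * E)) := by rw [hZ]; simp only [Matrix.mul_assoc]
        _ = A * J * ((Aᵀ * Eᵀ) * Q) := by rw [← hEQ, hET]; simp only [Matrix.mul_assoc]
        _ = Z := by rw [← Matrix.transpose_mul, hEA, hZ]; simp only [Matrix.mul_assoc]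
    intro a b hab
    constructor
    · by_contra hcon
      apply hab
      rw [← hEZ, hE]
      unfold Ec
      rw [Matrix.diagonal_mul, if_neg hcon, zero_mul]
    · by_contra hcon
      apply hab
      rw [← hZE, hE]
      unfold Ec
      rw [Matrix.mul_diagonal, if_neg hcon, mul_zero]
  · have h11 : x * Z = Z := by
      calc x * Z = (x * A) * J * Aᵀ * Q := by rw [hZ]; simp only [Matrix.mul_assoc]
        _ = Z := by rw [hxA]
    have hQx : Q * x = -(xᵀ * Q) := by rw [hsk, neg_neg]
    have h12 : Z * x = -Z := by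
      calc Z * x = A * J * (Aᵀ * (Q * x)) := by rw [hZ]; simp only [Matrix.mul_assoc]
        _ = -(A * J * ((Aᵀ * xᵀ) * Q)) := by
            rw [hQx]; simp only [Matrix.mul_assoc, Matrix.mul_neg]
        _ = -Z := by
            rw [← Matrix.transpose_mul, hxA, hZ]; simp only [Matrix.mul_assoc]
    rw [h11, h12, two_smul]
    abel

end Q43.HTM
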