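import Mathlib
import Pool.Agent.W544.PG.Defs4

/-!
# Representations of `so(n)`: irreducibility, Schur's lemma, twists of intertwining operators
-/

set_option autoImplicit false

open Matrix Finset Module

namespace Q43.HTM

open Pool.Agent.W544.PG

theorem skew_stable {m : ℕ} (hm : 3 ≤ m) (K : Submodule ℂ (Fin m → ℂ))
    (hK : ∀ y : Matrix (Fin m) (Fin m) ℂ, yᵀ = -y → ∀ v ∈ K, y *ᵥ v ∈ K) : K = ⊥ ∨ K = ⊤ := by
  by_cases h0 : K = ⊥
  · exact Or.inl h0
  right
  obtain ⟨v, hv, hv0⟩ := (Submodule.ne_bot_iff _).1 h0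
  obtain ⟨a, ha⟩ := Function.ne_iff.1 hv0
  have hE : ∀ x y : Fin m, ∀ w ∈ K, w y • (Pi.single x (1 : ℂ) : Fin m → ℂ) -
      w x • (Pi.single y (1 : ℂ) : Fin m → ℂ) ∈ K := by
    intro x y w hw
    have h1 := hK (Matrix.single x y 1 - Matrix.single y x 1) (by
      rw [Matrix.transpose_sub, Matrix.transpose_single, Matrix.transpose_single, neg_sub]) w hw
    have h2 : (Matrix.single x y (1 : ℂ) - Matrix.single y x 1) *ᵥ w =
        w y • (Pi.single x (1 : ℂ) : Fin m → ℂ) - w x • (Pi.single y (1 : ℂ) : Fin m → ℂ) := by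
      rw [Matrix.sub_mulVec, Matrix.single_mulVec, Matrix.single_mulVec]
      ext b
      simp [Pi.single_apply, Function.update_apply]
    rwa [h2] at h1
  -- a basis vector
  obtain ⟨x, hx⟩ : ∃ x : Fin m, (Pi.single x (1 : ℂ) : Fin m → ℂ) ∈ K := by
    by_cases hb : ∃ b, b ≠ a ∧ v b ≠ 0
    · obtain ⟨b, hba, hvb⟩ := hb
      obtain ⟨d, hda, hdb⟩ : ∃ d : Fin m, d ≠ a ∧ d ≠ b := by
        by_contra hcon
        push Not at hcon
        have h1 : (Finset.univ : Finset (Fin m)) ⊆ {a, b} := by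
          intro d _
          rw [Finset.mem_insert, Finset.mem_singleton]
          by_cases h : d = a
          · exact Or.inl h
          · exact Or.inr (hcon d h)
        have h2 := Finset.card_le_card h1
        rw [Finset.card_univ, Fintype.card_fin] at h2
        have h3 : ({a, b} : Finset (Fin m)).card ≤ 2 := Finset.card_le_two
        omega
      have h1 := hE a b v hv
      obtain ⟨u, hu⟩ : ∃ u : Fin m → ℂ, u = v b • (Pi.single a (1 : ℂ) : Fin m → ℂ) -
        v a • (Pi.single b (1 : ℂ) : Fin m → ℂ) := ⟨_, rfl⟩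
      rw [← hu] at h1
      have ua : u a = v b := by rw [hu]; simp [Pi.single_eq_of_ne hba.symm]
      have ub : u b = -v a := by rw [hu]; simp [Pi.single_eq_of_ne hba]
      have h2 := hE a b u h1
      rw [ua, ub] at h2
      obtain ⟨w, hw⟩ : ∃ w : Fin m → ℂ, w = -v a • (Pi.single a (1 : ℂ) : Fin m → ℂ) -
        v b • (Pi.single b (1 : ℂ) : Fin m → ℂ) := ⟨_, rfl⟩
      rw [← hw] at h2
      have wb : w b = -v b := by rw [hw]; simp [Pi.single_eq_of_ne hba]
      have wd : w d = 0 := by rw [hw]; simp [Pi.single_eq_of_ne hda, Pi.single_eq_of_ne hdb]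
      have h3 := hE b d w h2
      rw [wb, wd, zero_smul, zero_sub, neg_smul, neg_neg] at h3
      exact ⟨d, (K.smul_mem_iff hvb).1 h3⟩
    · push Not at hb
      refine ⟨a, ?_⟩
      have h1 : v = v a • (Pi.single a (1 : ℂ) : Fin m → ℂ) := by
        ext b
        by_cases h : b = a
        · subst h; simp
        · simp [Pi.single_apply, h, hb b h]
      rw [h1] at hv
      exact (K.smul_mem_iff ha).1 hv
  rw [Submodule.eq_top_iff']
  have hall : ∀ y, (Pi.single y (1 : ℂ) : Fin m → ℂ) ∈ K := by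
    intro y
    by_cases hyx : y = x
    · rw [hyx]; exact hx
    · have h1 := hE y x _ hx
      simpa [Pi.single_apply, hyx] using h1
  intro w
  have h1 : w = ∑ y, w y • (Pi.single y (1 : ℂ) : Fin m → ℂ) := by
    ext b
    simp [Pi.single_apply]
  rw [h1]
  exact Submodule.sum_mem _ fun y _ => K.smul_mem _ (hall y)

theorem comm_scalar {m : ℕ} (hm : 3 ≤ m) (M : Matrix (Fin m) (Fin m) ℂ)
    (h : ∀ y : Matrix (Fin m) (Fin m) ℂ, yᵀ = -y → M * y = y * M) :
    ∃ c : ℂ, M = c • (1 : Matrix (Fin m) (Fin m) ℂ) := by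
  have : Nontrivial (Fin m → ℂ) := by
    have : Nonempty (Fin m) := ⟨⟨0, by omega⟩⟩
    infer_instance
  obtain ⟨c, hc⟩ := Module.End.exists_eigenvalue (Matrix.toLin' M)
  refine ⟨c, ?_⟩
  rcases skew_stable hm (Module.End.eigenspace (Matrix.toLin' M) c) (fun y hy v hv => by
    rw [Module.End.mem_eigenspace_iff, Matrix.toLin'_apply] at hv ⊢
    rw [Matrix.mulVec_mulVec, h y hy, ← Matrix.mulVec_mulVec, hv, Matrix.mulVec_smul]) with h1 | h1
  · exact absurd h1 hc
  · apply Matrix.toLin'.injective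
    apply LinearMap.ext
    intro v
    have h2 : v ∈ Module.End.eigenspace (Matrix.toLin' M) c := by rw [h1]; trivial
    rw [Module.End.mem_eigenspace_iff] at h2
    rw [h2, Matrix.toLin'_apply, Matrix.smul_mulVec, Matrix.one_mulVec]

theorem twist {n m : ℕ} (hn : 3 ≤ n) (hnm : n = m)
    {θ : Matrix (Fin n) (Fin n) ℂ →ₗ[ℂ] Matrix (Fin m) (Fin m) ℂ} (hθ : IsoSo θ)
    {A : Matrix (Fin m) (Fin n) ℂ} (hA0 : A ≠ 0)
    (hA : ∀ y : Matrix (Fin n) (Fin n) ℂ, yᵀ = -y → A * y = θ y * A)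
    {P : Matrix (Fin n) (Fin n) ℂ} {R : Matrix (Fin m) (Fin m) ℂ} (hP : Pᵀ * P = 1)
    (hR : Rᵀ * R = 1) (hPR : ∀ y : Matrix (Fin n) (Fin n) ℂ, yᵀ = -y →
      θ (P * y * Pᵀ) = R * θ y * Rᵀ) : ∃ χ : ℂ, χ * χ = 1 ∧ A * P = χ • (R * A) := by
  subst hnm
  have hAT : ∀ y : Matrix (Fin n) (Fin n) ℂ, yᵀ = -y → Aᵀ * θ y = y * Aᵀ := by
    intro y hy
    have h1 := congrArg Matrix.transpose (hA y hy)
    rw [Matrix.transpose_mul, Matrix.transpose_mul, hy, hθ.map y hy, Matrix.neg_mul,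
      Matrix.mul_neg, neg_inj] at h1
    exact h1.symm
  have hcomm : ∀ B : Matrix (Fin n) (Fin n) ℂ,
      (∀ y : Matrix (Fin n) (Fin n) ℂ, yᵀ = -y → B * y = θ y * B) →
      ∃ c : ℂ, Aᵀ * B = c • (1 : Matrix (Fin n) (Fin n) ℂ) := by
    intro B hB
    refine comm_scalar hn _ fun y hy => ?_
    rw [Matrix.mul_assoc, hB y hy, ← Matrix.mul_assoc, hAT y hy, Matrix.mul_assoc]
  obtain ⟨l, hl⟩ := hcomm A hA
  have hdet : A.det ≠ 0 := by
    intro h0
    obtain ⟨v, hv, hv0⟩ := Matrix.exists_mulVec_eq_zero_iff.2 h0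
    rcases skew_stable hn (LinearMap.ker (Matrix.toLin' A)) (fun y hy w hw => by
      rw [LinearMap.mem_ker, Matrix.toLin'_apply] at hw ⊢
      rw [Matrix.mulVec_mulVec, hA y hy, ← Matrix.mulVec_mulVec, hw, Matrix.mulVec_zero])
      with h1 | h1
    · apply hv
      have h2 : v ∈ LinearMap.ker (Matrix.toLin' A) := by
        rw [LinearMap.mem_ker, Matrix.toLin'_apply, hv0]
      rw [h1, Submodule.mem_bot] at h2
      exact h2
    · apply hA0
      apply Matrix.toLin'.injective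
      rw [map_zero]
      exact LinearMap.ker_eq_top.1 h1
  have hl0 : l ≠ 0 := by
    rintro rfl
    rw [zero_smul] at hl
    have h1 := congrArg Matrix.det hl
    have : Nonempty (Fin n) := ⟨⟨0, by omega⟩⟩
    rw [Matrix.det_mul, Matrix.det_transpose, Matrix.det_zero] at h1
    exact hdet (mul_self_eq_zero.1 h1)
  have hAA : A * Aᵀ = l • (1 : Matrix (Fin n) (Fin n) ℂ) := by
    have h1 : (l⁻¹ • Aᵀ) * A = 1 := by
      rw [Matrix.smul_mul, hl, smul_smul, inv_mul_cancel₀ hl0, one_smul]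
    have h2 := mul_eq_one_comm.1 h1
    rw [Matrix.mul_smul] at h2
    have h3 := congrArg (fun X => l • X) h2
    simp only [smul_smul, mul_inv_cancel₀ hl0, one_smul] at h3
    exact h3
  have hPP : P * Pᵀ = 1 := mul_eq_one_comm.1 hP
  have hRR : R * Rᵀ = 1 := mul_eq_one_comm.1 hR
  obtain ⟨B, hB⟩ : ∃ B, B = Rᵀ * A * P := ⟨_, rfl⟩
  have hBy : ∀ y : Matrix (Fin n) (Fin n) ℂ, yᵀ = -y → B * y = θ y * B := by
    intro y hy
    have hy' : (P * y * Pᵀ)ᵀ = -(P * y * Pᵀ) := by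
      rw [Matrix.transpose_mul, Matrix.transpose_mul, Matrix.transpose_transpose, hy,
        Matrix.neg_mul, Matrix.mul_neg, Matrix.mul_assoc]
    calc B * y = Rᵀ * (A * (P * y * Pᵀ)) * P := by
          rw [hB]
          calc Rᵀ * A * P * y = Rᵀ * A * P * y * (Pᵀ * P) := by rw [hP, Matrix.mul_one]
            _ = _ := by simp only [Matrix.mul_assoc]
      _ = Rᵀ * (R * θ y * Rᵀ * A) * P := by rw [hA _ hy', hPR y hy]
      _ = (Rᵀ * R) * θ y * (Rᵀ * A * P) := by simp only [Matrix.mul_assoc]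
      _ = θ y * B := by rw [hR, Matrix.one_mul, hB]
  obtain ⟨μ, hμ⟩ := hcomm B hBy
  have hBA : B = (μ * l⁻¹) • A := by
    have h1 : l • B = μ • A := by
      calc l • B = (l • (1 : Matrix (Fin n) (Fin n) ℂ)) * B := by
            rw [Matrix.smul_mul, Matrix.one_mul]
        _ = A * (Aᵀ * B) := by rw [← hAA, Matrix.mul_assoc]
        _ = μ • A := by rw [hμ, Matrix.mul_smul, Matrix.mul_one]
    rw [mul_comm, ← smul_smul, ← h1, smul_smul, inv_mul_cancel₀ hl0, one_smul]
  refine ⟨μ * l⁻¹, ?_, ?_⟩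
  · have h1 : Bᵀ * B = l • (1 : Matrix (Fin n) (Fin n) ℂ) := by
      calc Bᵀ * B = Pᵀ * (Aᵀ * (R * Rᵀ) * A) * P := by
            rw [hB, Matrix.transpose_mul, Matrix.transpose_mul, Matrix.transpose_transpose]
            simp only [Matrix.mul_assoc]
        _ = _ := by
            rw [hRR, Matrix.mul_one, hl, Matrix.mul_smul, Matrix.smul_mul, Matrix.mul_one, hP]
    rw [hBA, Matrix.transpose_smul, Matrix.smul_mul, Matrix.mul_smul, smul_smul, hl, smul_smul]
      at h1
    have h2 := congrFun (congrFun h1 ⟨0, by omega⟩) ⟨0, by omega⟩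
    simp only [Matrix.smul_apply, Matrix.one_apply_eq, smul_eq_mul, mul_one] at h2
    have h3 : (μ * l⁻¹ * (μ * l⁻¹) - 1) * l = 0 := by linear_combination h2
    rcases mul_eq_zero.1 h3 with h4 | h4
    · linear_combination h4
    · exact absurd h4 hl0
  · calc A * P = (R * Rᵀ) * A * P := by rw [hRR, Matrix.one_mul]
      _ = R * B := by rw [hB]; simp only [Matrix.mul_assoc]
      _ = _ := by rw [hBA, Matrix.mul_smul]

end Q43.HTM
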