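import Mathlib
import Pool.Agent.Q43.HTM.Int
import Pool.Agent.Q43.HTM.Eg2
import Pool.Agent.Y95.ZL.Coord
import Pool.Agent.Y95.MT.LieV

/-!
# A Lie algebra of skew operators which contains a Hodge-Tate operator and is normalised by a group
-/

set_option autoImplicit false
set_option linter.unusedSectionVars false

open Matrix Finset Module

namespace Q43.HTM

open Pool.Agent.W544.PG
open Pool.Agent.Y95.MT (mem_col)

noncomputable section

variable {n r : ℕ} {T : HS n} {c : Fin n → Fin r} {p q : Fin r → ℕ} {Γ : Type} [Group Γ]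
  {R : Γ →* Matrix (Fin n) (Fin n) ℂ}

/-- `T_i` is irreducible for all subgroups of finite index -/
def Irr (c : Fin n → Fin r) (R : Γ →* Matrix (Fin n) (Fin n) ℂ) (i : Fin r) : Prop :=
  ∀ Δ : Subgroup Γ, Δ.FiniteIndex → ∀ W : Submodule ℂ (Fin n → ℂ), W ≤ Pool.Agent.Y95.MT.col c i →
    (∀ s ∈ Δ, ∀ w ∈ W, R s *ᵥ w ∈ W) → W = ⊥ ∨ W = Pool.Agent.Y95.MT.col c i

/-- `T_i` and `T_j` are not isomorphic for any subgroup of finite index -/
def NonIso (c : Fin n → Fin r) (R : Γ →* Matrix (Fin n) (Fin n) ℂ) (i j : Fin r) : Prop :=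
  ∀ Δ : Subgroup Γ, Δ.FiniteIndex → ∀ A : Matrix (Fin n) (Fin n) ℂ,
    (∀ a b, A a b ≠ 0 → c a = j ∧ c b = i) → (∀ s ∈ Δ, A * R s = R s * A) → A = 0

/-- the block of the representation -/
def blkRep {k : ℕ} {e : Fin k → Fin n} {i : Fin r} (b : Enum c e i) (hb : ∀ s, BD c (R s)) :
    Γ →* Matrix (Fin k) (Fin k) ℂ where
  toFun s := (R s).submatrix e e
  map_one' := by rw [map_one, Matrix.submatrix_one _ b.inj]
  map_mul' s t := by rw [map_mul, b.sub_mul (hb t)]

theorem blkRep_apply {k : ℕ} {e : Fin k → Fin n} {i : Fin r} (b : Enum c e i)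
    (hb : ∀ s, BD c (R s)) (s : Γ) : blkRep b hb s = (R s).submatrix e e := rfl

theorem sirr_blk {k : ℕ} {e : Fin k → Fin n} {i : Fin r} (b : Enum c e i)
    (hb : ∀ s, BD c (R s)) (hirr : Irr c R i) : Pool.Agent.Y95.ZL.SIrr (blkRep b hb) := by
  intro Δ hΔ W hW
  have hinj : ∀ w : Fin k → ℂ, (sel e)ᵀ *ᵥ (sel e *ᵥ w) = w := by
    intro w
    rw [Matrix.mulVec_mulVec, sel_T_sel _ b.inj, Matrix.one_mulVec]
  have hcol : ∀ w : Fin k → ℂ, sel e *ᵥ w ∈ (Pool.Agent.Y95.MT.col c i : Submodule ℂ (Fin n → ℂ)) := by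
    intro w
    rw [mem_col]
    intro a ha
    rw [Matrix.mulVec, dotProduct]
    refine Finset.sum_eq_zero fun x _ => ?_
    rw [sel, Matrix.of_apply, if_neg, zero_mul]
    intro h
    exact ha (by rw [← h, b.col])
  have h1 := hirr Δ hΔ (W.map (Matrix.toLin' (sel e))) (by
    rintro _ ⟨w, _, rfl⟩
    rw [Matrix.toLin'_apply]
    exact hcol w) (by
    rintro s hs _ ⟨w, hw, rfl⟩
    refine ⟨blkRep b hb s *ᵥ w, hW s hs w hw, ?_⟩
    rw [Matrix.toLin'_apply, Matrix.toLin'_apply, Matrix.mulVec_mulVec, Matrix.mulVec_mulVec,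
      b.mul_sel (hb s)]
    rfl)
  rcases h1 with h1 | h1
  · left
    rw [Submodule.eq_bot_iff]
    intro w hw
    have h2 : Matrix.toLin' (sel e) w ∈ W.map (Matrix.toLin' (sel e)) := ⟨w, hw, rfl⟩
    rw [h1, Submodule.mem_bot, Matrix.toLin'_apply] at h2
    rw [← hinj w, h2, Matrix.mulVec_zero]
  · right
    rw [Submodule.eq_top_iff']
    intro w
    have h2 := hcol w
    rw [← h1] at h2
    obtain ⟨w', hw', h3⟩ := h2
    rw [Matrix.toLin'_apply] at h3
    rw [← hinj w, ← h3, hinj]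
    exact hw'

section
variable {h : Submodule ℂ (Matrix (Fin n) (Fin n) ℂ)} {D : Matrix (Fin n) (Fin n) ℂ}

theorem trace_sub {k : ℕ} {e : Fin k → Fin n} {i : Fin r} (b : Enum c e i)
    (A : Matrix (Fin n) (Fin n) ℂ) : (A.submatrix e e).trace = ∑ a with c a = i, A a a := by
  rw [Matrix.trace]
  have h1 : (Finset.univ.filter fun a => c a = i) = Finset.univ.image e := by
    ext a
    simp only [Finset.mem_filter, Finset.mem_univ, true_and, Finset.mem_image]
    constructor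
    · intro ha
      exact b.surj a ha
    · rintro ⟨j, rfl⟩
      exact b.col j
  rw [h1, Finset.sum_image fun x _ y _ hxy => b.inj hxy]
  rfl

/-- every element of `so(T_i)` is the restriction of an element of the Lie algebra -/
theorem surjGal (hB : T.Big c p q) (hcop : ∀ i, Nat.Coprime (p i) (q i))
    (hb : ∀ s, BD c (R s)) (hirr : ∀ i, Irr c R i)
    (hbd : ∀ y ∈ h, BD c y) (hsk : ∀ y ∈ h, yᵀ * mC T.Q + mC T.Q * y = 0)
    (hli : ∀ y ∈ h, ∀ z ∈ h, y * z - z * y ∈ h)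
    (hst : ∀ s, ∀ y ∈ h, R s * y * R s⁻¹ ∈ h) (hD : D ∈ h) (hD3 : D * D * D = D)
    (htr : ∀ i, ∑ a with c a = i, (D * D) a a = 2 * (p i : ℂ)) {i : Fin r}
    {e : Fin (2 * p i + q i) → Fin n} {T' : HS (2 * p i + q i)}
    (b : Blk T c i e T') (Z : Matrix (Fin (2 * p i + q i)) (Fin (2 * p i + q i)) ℂ)
    (hZ : Zᵀ * mC T'.Q + mC T'.Q * Z = 0) : ∃ y ∈ h, y.submatrix e e = Z := by
  have hp : 0 < p i := by
    rcases hB.num i with h' | h'
    · omega
    · exact h'.1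
  have hq : 0 < q i := by
    rcases hB.num i with h' | h'
    · exact h'.2.1
    · by_contra h0
      have h1 : q i = 0 := by omega
      have h2 := h'.2
      rw [h1, Nat.zero_sub, Nat.zero_mul] at h2
      omega
  have hdet : (mC T'.Q).det ≠ 0 := by
    rw [det_mC]
    exact_mod_cast Pool.Agent.W74.PG.det_ne T'
  have hm := Pool.Agent.Y95.ZL.core_Q (sirr_blk b.en hb (hirr i)) (Q := mC T'.Q)
    (D := D.submatrix e e) (p := p i) (q := q i) (h := h.map (subL e))
    (by rw [mC_T, T'.symm]) hdet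
    (by rw [← b.en.sub_mul (hbd D hD), ← b.en.sub_mul (hbd D hD), hD3])
    (by rw [← b.en.sub_mul (hbd D hD), trace_sub b.en, htr i])
    (by omega) hp hq
    (by
      rcases hB.num i with h' | h'
      · exact Or.inl h'.1
      · exact Or.inr h'.2) (hcop i) ?_ ?_ ?_ ⟨D, hD, rfl⟩ Z hZ
  · obtain ⟨y, hy, hyZ⟩ := hm
    exact ⟨y, hy, hyZ⟩
  · rintro s _ ⟨y, hy, rfl⟩
    refine ⟨R s * y * R s⁻¹, hst s y hy, ?_⟩
    change (R s * y * R s⁻¹).submatrix e e = (R s).submatrix e e * y.submatrix e e *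
      (R s⁻¹).submatrix e e
    rw [b.en.sub_mul (hb s⁻¹), b.en.sub_mul (hbd y hy)]
  · rintro _ ⟨y, hy, rfl⟩
    exact b.skew hB (hsk y hy)
  · rintro _ ⟨y, hy, rfl⟩ _ ⟨z, hz, rfl⟩
    refine ⟨y * z - z * y, hli y hy z hz, ?_⟩
    change (y * z - z * y).submatrix e e = y.submatrix e e * z.submatrix e e -
      z.submatrix e e * y.submatrix e e
    rw [← b.en.sub_mul (hbd z hz), ← b.en.sub_mul (hbd y hy)]
    rfl

end

end

end Q43.HTM
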