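import Mathlib
import Pool.Agent.Q43.HTM.Lie

/-!
# The theorem on Lie algebras for sums, Galois version
-/

set_option autoImplicit false
set_option linter.unusedSectionVars false

open Matrix Finset Module

namespace Q43.HTM

open Pool.Agent.W544.PG

noncomputable section

variable {n r : ℕ} {T : HS n} {c : Fin n → Fin r} {p q : Fin r → ℕ} {Γ : Type} [Group Γ]
  {R : Γ →* Matrix (Fin n) (Fin n) ℂ} {hh0 : Submodule ℂ (Matrix (Fin n) (Fin n) ℂ)}
  {D : Matrix (Fin n) (Fin n) ℂ}

theorem mainGal (hB : T.Big c p q) (hcop : ∀ i, Nat.Coprime (p i) (q i))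
    (hb : ∀ s, BD c (R s)) (hRQ : ∀ s, (R s)ᵀ * mC T.Q * R s = mC T.Q)
    (hirr : ∀ i, Irr c R i) (hiso2 : ∀ i j, i ≠ j → NonIso c R i j)
    (hbd : ∀ y ∈ hh0, BD c y) (hsk : ∀ y ∈ hh0, yᵀ * mC T.Q + mC T.Q * y = 0)
    (hli : ∀ y ∈ hh0, ∀ z ∈ hh0, y * z - z * y ∈ hh0)
    (hst : ∀ s, ∀ y ∈ hh0, R s * y * R s⁻¹ ∈ hh0) (hD : D ∈ hh0) (hD3 : D * D * D = D)
    (htr : ∀ i, ∑ a with c a = i, (D * D) a a = 2 * (p i : ℂ))
    (Z : Matrix (Fin n) (Fin n) ℂ)
    (hZ : Zᵀ * mC T.Q + mC T.Q * Z = 0) (hZc : BD c Z) : Z ∈ hh0 := by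
  choose e T' b using fun i => exists_blk Pool.Agent.W571.PG.sub hB i
  have hdet : ∀ i, (mC (T' i).Q).det ≠ 0 := by
    intro i h
    apply Pool.Agent.W74.PG.det_ne (T' i)
    have h1 : (mC (T' i).Q).det = (((T' i).Q.det : ℚ) : ℂ) := by
      have h2 := (Rat.castHom ℂ).map_det (T' i).Q
      exact h2.symm
    rw [h1] at h
    exact_mod_cast h
  have horth : ∀ i, ∃ g : Matrix (Fin (2 * p i + q i)) (Fin (2 * p i + q i)) ℂ,
      gᵀ * mC (T' i).Q * g = 1 := fun i => Pool.Agent.W557.PG.orth _ (by rw [mC_T, (T' i).symm]) (hdet i)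
  choose g hg using horth
  obtain ⟨g', hg'⟩ : ∃ g' : ∀ i, Matrix (Fin (2 * p i + q i)) (Fin (2 * p i + q i)) ℂ,
      g' = fun i => (g i)ᵀ * mC (T' i).Q := ⟨_, rfl⟩
  have e1 : ∀ i, g' i * g i = 1 := fun i => by rw [hg']; exact hg i
  have e2 : ∀ i, g i * g' i = 1 := fun i => mul_eq_one_comm.1 (e1 i)
  -- skewness in the new coordinates
  have sk1 : ∀ i (y : Matrix (Fin (2 * p i + q i)) (Fin (2 * p i + q i)) ℂ),
      yᵀ * mC (T' i).Q + mC (T' i).Q * y = 0 → (g' i * y * g i)ᵀ = -(g' i * y * g i) := by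
    intro i y hy
    have h1 := cc_skew (e2 i) (mC (T' i).Q) y hy
    rw [hg i, Matrix.mul_one, Matrix.one_mul] at h1
    exact eq_neg_of_add_eq_zero_left h1
  have sk2 : ∀ i (y : Matrix (Fin (2 * p i + q i)) (Fin (2 * p i + q i)) ℂ),
      yᵀ = -y → (g i * y * g' i)ᵀ * mC (T' i).Q + mC (T' i).Q * (g i * y * g' i) = 0 := by
    intro i y hy
    have h1 : (g i * y * g' i)ᵀ * mC (T' i).Q = -(mC (T' i).Q * (g i * y * g' i)) := by
      have t1 : (g i)ᵀ * (g' i)ᵀ = 1 := by rw [← Matrix.transpose_mul, e1, Matrix.transpose_one]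
      have t2 : (g' i)ᵀ * (g i)ᵀ = 1 := by rw [← Matrix.transpose_mul, e2, Matrix.transpose_one]
      have t3 : (g i)ᵀ * mC (T' i).Q = g' i := by rw [hg']
      have t4 : mC (T' i).Q * g i = (g' i)ᵀ := by
        calc mC (T' i).Q * g i = (g' i)ᵀ * (g i)ᵀ * (mC (T' i).Q * g i) := by
              rw [t2, Matrix.one_mul]
          _ = (g' i)ᵀ * ((g i)ᵀ * mC (T' i).Q * g i) := by simp only [Matrix.mul_assoc]
          _ = (g' i)ᵀ := by rw [hg i, Matrix.mul_one]
      rw [Matrix.transpose_mul, Matrix.transpose_mul, hy]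
      calc (g' i)ᵀ * (-y * (g i)ᵀ) * mC (T' i).Q = -((g' i)ᵀ * y * ((g i)ᵀ * mC (T' i).Q)) := by
            simp only [Matrix.mul_assoc, Matrix.neg_mul, Matrix.mul_neg]
        _ = -((g' i)ᵀ * y * g' i) := by rw [t3]
        _ = -(mC (T' i).Q * (g i * y * g' i)) := by
            rw [← t4]
            simp only [Matrix.mul_assoc]
    rw [h1, neg_add_cancel]
  obtain ⟨h, hh⟩ : ∃ h, h = hh0.map (phi e g g') := ⟨_, rfl⟩
  have mem : ∀ y ∈ hh0, phi e g g' y ∈ h := fun y hy => by
    rw [hh]; exact ⟨y, hy, rfl⟩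
  have A1 : ∀ y ∈ h, ∀ i, (y i)ᵀ = -y i := by
    rw [hh]
    rintro _ ⟨y, hy, rfl⟩ i
    exact sk1 i _ ((b i).skew hB (hsk y hy))
  have A2 : ∀ y ∈ h, ∀ z ∈ h, (fun i => br (y i) (z i)) ∈ h := by
    rw [hh]
    rintro _ ⟨y, hy, rfl⟩ _ ⟨z, hz, rfl⟩
    refine ⟨y * z - z * y, hli y hy z hz, ?_⟩
    funext i
    change g' i * (y * z - z * y).submatrix (e i) (e i) * g i =
      g' i * y.submatrix (e i) (e i) * g i * (g' i * z.submatrix (e i) (e i) * g i) -
      g' i * z.submatrix (e i) (e i) * g i * (g' i * y.submatrix (e i) (e i) * g i)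
    rw [cc_mul' (e2 i), cc_mul' (e2 i), ← (b i).en.sub_mul (hbd z hz),
      ← (b i).en.sub_mul (hbd y hy), ← Matrix.sub_mul, ← Matrix.mul_sub]
    rfl
  have A3 : ∀ (i : Fin r) (Z : Matrix (Fin (2 * p i + q i)) (Fin (2 * p i + q i)) ℂ),
      Zᵀ = -Z → ∃ y ∈ h, y i = Z := by
    intro i Z hZ
    obtain ⟨y, hy, hyZ⟩ := surjGal hB hcop hb hirr hbd hsk hli hst hD hD3 htr (b i) _ (sk2 i Z hZ)
    refine ⟨_, mem y hy, ?_⟩
    change g' i * y.submatrix (e i) (e i) * g i = Z
    rw [hyZ]
    exact cc_fwd (e1 i) Z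
  have hm : ∀ i, 3 ≤ 2 * p i + q i ∧ 2 * p i + q i ≠ 4 ∧ (p i = 1 ∨ 2 * p i + q i ≠ 8) := by
    intro i
    rcases hB.num i with h | ⟨h0, h⟩
    · omega
    · have hlt : 2 * p i < q i := by
        by_contra h'
        rw [Nat.sub_eq_zero_of_le (not_lt.1 h'), zero_mul] at h
        omega
      omega
  have A4 : ∀ i j, i ≠ j → ∃ y ∈ h, y i = 0 ∧ y j ≠ 0 := by
    intro i j hij
    by_contra hcon
    push Not at hcon
    obtain ⟨θ, hθ⟩ := exists_theta h (LinearMap.proj (R := ℂ)
      (φ := fun i : Fin r => Matrix (Fin (2 * p i + q i)) (Fin (2 * p i + q i)) ℂ) i)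
      (LinearMap.proj (R := ℂ)
      (φ := fun i : Fin r => Matrix (Fin (2 * p i + q i)) (Fin (2 * p i + q i)) ℂ) j) hcon
    replace hθ : ∀ y ∈ h, θ (y i) = y j := hθ
    have hbr : ∀ y z, yᵀ = -y → zᵀ = -z → θ (br y z) = br (θ y) (θ z) := by
      intro y z hy hz
      obtain ⟨Y, hY, rfl⟩ := A3 i y hy
      obtain ⟨W, hW, rfl⟩ := A3 i z hz
      have h1 := hθ _ (A2 Y hY W hW)
      rw [hθ Y hY, hθ W hW]
      exact h1
    have hinj : ∀ y, yᵀ = -y → θ y = 0 → y = 0 := by
      intro y hy hy0
      by_contra hne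
      have hall : ∀ Z : Matrix (Fin (2 * p i + q i)) (Fin (2 * p i + q i)) ℂ, Zᵀ = -Z →
          θ Z = 0 := by
        intro Z hZ
        let J : Submodule ℂ (Matrix (Fin (2 * p i + q i)) (Fin (2 * p i + q i)) ℂ) :=
          { carrier := {y | yᵀ = -y ∧ θ y = 0}
            zero_mem' := by simp
            add_mem' := by
              rintro a b ⟨ha, ha'⟩ ⟨hb, hb'⟩
              refine ⟨?_, ?_⟩
              · rw [Matrix.transpose_add, ha, hb]; abel
              · rw [map_add, ha', hb', add_zero]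
            smul_mem' := by
              rintro z a ⟨ha, ha'⟩
              refine ⟨?_, ?_⟩
              · rw [Matrix.transpose_smul, ha, smul_neg]
              · rw [map_smul, ha', smul_zero] }
        have h1 : Z ∈ J := by
          apply Pool.Agent.W589.PG.Sim.sim _ (hm i).1 (hm i).2.1 J (fun y hy => hy.1) _ _ Z hZ
          · intro Z hZ y hy
            refine ⟨?_, ?_⟩
            · unfold br
              rw [Matrix.transpose_sub, Matrix.transpose_mul, Matrix.transpose_mul, hy.1, hZ]
              simp only [Matrix.neg_mul, Matrix.mul_neg, neg_neg]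
              abel
            · rw [hbr Z y hZ hy.1, hy.2]
              unfold br
              rw [Matrix.mul_zero, Matrix.zero_mul, sub_zero]
          · intro hJ
            apply hne
            have : y ∈ J := ⟨hy, hy0⟩
            rw [hJ] at this
            exact (Submodule.mem_bot ℂ).1 this
        exact h1.2
      have hj3 := (hm j).1
      obtain ⟨i0, i1, hi⟩ : ∃ i0 i1 : Fin (2 * p j + q j), i0 ≠ i1 :=
        ⟨⟨0, by omega⟩, ⟨1, by omega⟩, by simp [Fin.ext_iff]⟩
      obtain ⟨W, hW, hWj⟩ := A3 j (Matrix.single i0 i1 1 - Matrix.single i1 i0 1) (by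
          rw [Matrix.transpose_sub, Matrix.transpose_single, Matrix.transpose_single, neg_sub])
      have h2 := hθ W hW
      rw [hall _ (A1 W hW i), hWj] at h2
      have h3 := congrFun (congrFun h2 i0) i1
      simp [Matrix.single, hi, hi.symm] at h3
    have hiso : IsoSo θ := by
      refine ⟨?_, hinj, ?_, hbr⟩
      · intro y hy
        obtain ⟨Y, hY, rfl⟩ := A3 i y hy
        rw [hθ Y hY]
        exact A1 Y hY j
      · intro z hz
        obtain ⟨Y, hY, rfl⟩ := A3 j z hz
        exact ⟨Y i, A1 Y hY i, hθ Y hY⟩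
    have hcube : g' i * D.submatrix (e i) (e i) * g i * (g' i * D.submatrix (e i) (e i) * g i) *
        (g' i * D.submatrix (e i) (e i) * g i) = g' i * D.submatrix (e i) (e i) * g i := by
      rw [cc_mul' (e2 i), cc_mul' (e2 i), ← (b i).en.sub_mul (hbd D hD),
        ← (b i).en.sub_mul (hbd D hD), hD3]
    have hcubej : g' j * D.submatrix (e j) (e j) * g j * (g' j * D.submatrix (e j) (e j) * g j) *
        (g' j * D.submatrix (e j) (e j) * g j) = g' j * D.submatrix (e j) (e j) * g j := by
      rw [cc_mul' (e2 j), cc_mul' (e2 j), ← (b j).en.sub_mul (hbd D hD),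
        ← (b j).en.sub_mul (hbd D hD), hD3]
    have hθD : θ (g' i * D.submatrix (e i) (e i) * g i) = g' j * D.submatrix (e j) (e j) * g j :=
      hθ _ (mem _ hD)
    obtain ⟨A, hA0, hA⟩ := thtF (2 * p i + q i) (2 * p j + q j) (p i) (hm i).1 (hm j).1
      (hm i).2.2 θ hiso (g' i * D.submatrix (e i) (e i) * g i)
      (sk1 i _ ((b i).skew hB (hsk _ hD))) hcube (by
        rw [cc_mul' (e2 i), Matrix.mul_assoc, Matrix.trace_mul_comm, Matrix.mul_assoc, e2,
          Matrix.mul_one, ← (b i).en.sub_mul (hbd D hD), trace_sub (b i).en, htr i]) (by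
        rw [hθD, hcubej])
    have hnm := (Pool.Agent.W366.PG.KIL.kil (2 * p i + q i) (2 * p j + q j) (hm i).1 (hm j).1 θ
      hiso).1
    -- the representations in the new coordinates
    have hort : ∀ (i : Fin r) (s : Γ), (g' i * (R s).submatrix (e i) (e i) * g i)ᵀ *
        (g' i * (R s).submatrix (e i) (e i) * g i) = 1 := by
      intro i s
      have h1 : ((R s).submatrix (e i) (e i))ᵀ * mC (T' i).Q * (R s).submatrix (e i) (e i) =
          mC (T' i).Q := by
        have hQb := hB.bQ.mC
        have h2 := congrArg (fun M => M.submatrix (e i) (e i)) (hRQ s)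
        rw [(b i).en.sub_mul (hb s), (b i).en.sub_mul hQb] at h2
        rw [(b i).Q, mC_sub]
        exact h2
      have t2 : (g' i)ᵀ = mC (T' i).Q * g i := by
        rw [hg', Matrix.transpose_mul, Matrix.transpose_transpose, mC_T, (T' i).symm]
      calc (g' i * (R s).submatrix (e i) (e i) * g i)ᵀ *
            (g' i * (R s).submatrix (e i) (e i) * g i) =
            (g i)ᵀ * (((R s).submatrix (e i) (e i))ᵀ * (mC (T' i).Q * (g i * g' i)) *
              (R s).submatrix (e i) (e i)) * g i := by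
              rw [Matrix.transpose_mul, Matrix.transpose_mul, t2]
              simp only [Matrix.mul_assoc]
        _ = 1 := by rw [e2, Matrix.mul_one, h1, hg]
    have hinvT : ∀ (i : Fin r) (s : Γ), (g' i * (R s).submatrix (e i) (e i) * g i)ᵀ =
        g' i * (R s⁻¹).submatrix (e i) (e i) * g i := by
      intro i s
      have h1 : g' i * (R s).submatrix (e i) (e i) * g i *
          (g' i * (R s⁻¹).submatrix (e i) (e i) * g i) = 1 := by
        rw [cc_mul' (e2 i), ← (b i).en.sub_mul (hb s⁻¹), ← map_mul, mul_inv_cancel, map_one,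
          Matrix.submatrix_one _ (b i).en.inj, Matrix.mul_one, e1]
      calc (g' i * (R s).submatrix (e i) (e i) * g i)ᵀ =
            (g' i * (R s).submatrix (e i) (e i) * g i)ᵀ *
            (g' i * (R s).submatrix (e i) (e i) * g i *
            (g' i * (R s⁻¹).submatrix (e i) (e i) * g i)) := by rw [h1, Matrix.mul_one]
        _ = _ := by rw [← Matrix.mul_assoc, hort i s, Matrix.one_mul]
    have htw : ∀ s : Γ, ∃ χ : ℂ, χ * χ = 1 ∧ A * (g' i * (R s).submatrix (e i) (e i) * g i) =
        χ • ((g' j * (R s).submatrix (e j) (e j) * g j) * A) := by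
      intro s
      refine twist (hm i).1 hnm hiso hA0 hA (hort i s) (hort j s) fun y hy => ?_
      obtain ⟨Y, hY, hYi⟩ := A3 i y hy
      rw [hh] at hY
      obtain ⟨y0, hy0, rfl⟩ := hY
      have h1 := hθ _ (mem _ (hst s y0 hy0))
      have h2 : ∀ i, phi e g g' (R s * y0 * R s⁻¹) i =
          g' i * (R s).submatrix (e i) (e i) * g i * phi e g g' y0 i *
            (g' i * (R s).submatrix (e i) (e i) * g i)ᵀ := by
        intro i
        rw [hinvT]
        change g' i * (R s * y0 * R s⁻¹).submatrix (e i) (e i) * g i =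
          g' i * (R s).submatrix (e i) (e i) * g i * (g' i * y0.submatrix (e i) (e i) * g i) *
            (g' i * (R s⁻¹).submatrix (e i) (e i) * g i)
        rw [cc_mul' (e2 i), cc_mul' (e2 i), ← (b i).en.sub_mul (hbd y0 hy0),
          ← (b i).en.sub_mul (hb s⁻¹)]
      rw [h2, h2] at h1
      rw [← hYi, h1, hθ _ (mem _ hy0)]
    choose χ hχ1 hχ2 using htw
    have hRA : ∀ s : Γ, (g' j * (R s).submatrix (e j) (e j) * g j) * A ≠ 0 := by
      intro s h0
      apply hA0
      calc A = (g' j * (R s).submatrix (e j) (e j) * g j)ᵀ *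
            ((g' j * (R s).submatrix (e j) (e j) * g j) * A) := by
            rw [← Matrix.mul_assoc, hort, Matrix.one_mul]
        _ = 0 := by rw [h0, Matrix.mul_zero]
    have hinj : ∀ (s : Γ) (x y : ℂ), x • ((g' j * (R s).submatrix (e j) (e j) * g j) * A) =
        y • ((g' j * (R s).submatrix (e j) (e j) * g j) * A) → x = y := by
      intro s x y hxy
      by_contra hne
      apply hRA s
      have h1 : (x - y) • ((g' j * (R s).submatrix (e j) (e j) * g j) * A) = 0 := by
        rw [sub_smul, hxy, sub_self]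
      exact (smul_eq_zero.1 h1).resolve_left (sub_ne_zero.2 hne)
    let X : Γ →* ℂ :=
      { toFun := χ
        map_one' := by
          apply hinj 1
          rw [← hχ2, map_one, Matrix.submatrix_one _ (b i).en.inj,
            Matrix.submatrix_one _ (b j).en.inj, Matrix.mul_one, Matrix.mul_one, e1, e1,
            Matrix.mul_one, Matrix.one_mul, one_smul]
        map_mul' := by
          intro s t
          apply hinj (s * t)
          rw [← hχ2, map_mul, (b i).en.sub_mul (hb t), (b j).en.sub_mul (hb t),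
            ← cc_mul' (e2 i), ← Matrix.mul_assoc, hχ2, Matrix.smul_mul, Matrix.mul_assoc _ A, hχ2,
            Matrix.mul_smul, smul_smul, ← Matrix.mul_assoc, cc_mul' (e2 j)] }
    have hX : ∀ s, X s = χ s := fun _ => rfl
    have hfin : X.toHomUnits.ker.FiniteIndex := by
      have h1 : Finite X.toHomUnits.range := by
        refine Set.Finite.subset (Set.toFinite ({1, -1} : Set ℂˣ)) ?_
        rintro _ ⟨s, rfl⟩
        have h2 : (X.toHomUnits s : ℂ) * X.toHomUnits s = 1 := by
          rw [MonoidHom.coe_toHomUnits, hX]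
          exact hχ1 s
        rcases mul_self_eq_one_iff.1 h2 with h3 | h3
        · exact Or.inl (Units.ext h3)
        · exact Or.inr (Units.ext (by rw [h3]; simp))
      infer_instance
    obtain ⟨C, hC⟩ : ∃ C, C = sel (e j) * g j * A * g' i * (sel (e i))ᵀ := ⟨_, rfl⟩
    have hcomm : ∀ s ∈ X.toHomUnits.ker, C * R s = R s * C := by
      intro s hs
      have hs1 : χ s = 1 := by
        rw [MonoidHom.mem_ker, Units.ext_iff, MonoidHom.coe_toHomUnits, hX] at hs
        exact hs
      have h1 := hχ2 s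
      rw [hs1, one_smul] at h1
      have h2 : C * R s = sel (e j) * g j *
          (A * (g' i * (R s).submatrix (e i) (e i) * g i)) * g' i * (sel (e i))ᵀ := by
        rw [hC, Matrix.mul_assoc, (b i).en.selT_mul (hb s)]
        calc sel (e j) * g j * A * g' i * ((R s).submatrix (e i) (e i) * (sel (e i))ᵀ)
            = sel (e j) * g j * A * g' i * (R s).submatrix (e i) (e i) * (g i * g' i) *
              (sel (e i))ᵀ := by
              rw [e2, Matrix.mul_one]; simp only [Matrix.mul_assoc]
          _ = _ := by simp only [Matrix.mul_assoc]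
      have h3 : R s * C = sel (e j) * g j *
          ((g' j * (R s).submatrix (e j) (e j) * g j) * A) * g' i * (sel (e i))ᵀ := by
        rw [hC]
        calc R s * (sel (e j) * g j * A * g' i * (sel (e i))ᵀ)
            = (R s * sel (e j)) * (g j * A * g' i * (sel (e i))ᵀ) := by
              simp only [Matrix.mul_assoc]
          _ = sel (e j) * (R s).submatrix (e j) (e j) * (g j * A * g' i * (sel (e i))ᵀ) := by
              rw [(b j).en.mul_sel (hb s)]
          _ = sel (e j) * (g j * g' j) * (R s).submatrix (e j) (e j) *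
              (g j * A * g' i * (sel (e i))ᵀ) := by
              rw [e2, Matrix.mul_one]
          _ = _ := by simp only [Matrix.mul_assoc]
      rw [h2, h3, h1]
    have hC2 : C = 0 := by
      refine hiso2 i j hij _ hfin C (fun a a' haa' => ?_) hcomm
      by_contra hcon
      apply haa'
      by_cases haj : c a = j
      · have hai : c a' ≠ i := fun h => hcon ⟨haj, h⟩
        rw [hC, Matrix.mul_apply]
        refine Finset.sum_eq_zero fun l _ => ?_
        have h2 : (sel (e i))ᵀ l a' = 0 := by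
          rw [Matrix.transpose_apply, sel, Matrix.of_apply, if_neg]
          intro h
          apply hai
          rw [← h, (b i).en.col]
        rw [h2, mul_zero]
      · rw [hC]
        simp only [Matrix.mul_assoc]
        rw [Matrix.mul_apply]
        refine Finset.sum_eq_zero fun l _ => ?_
        have h2 : sel (e j) a l = 0 := by
          rw [sel, Matrix.of_apply, if_neg]
          intro h
          apply haj
          rw [← h, (b j).en.col]
        rw [h2, zero_mul]
    apply hA0
    have h4 : A = g' j * ((sel (e j))ᵀ * C * sel (e i)) * g i := by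
      rw [hC]
      calc A = (g' j * g j) * A * (g' i * g i) := by rw [e1, e1, Matrix.one_mul, Matrix.mul_one]
        _ = g' j * (((sel (e j))ᵀ * sel (e j)) * g j * A * g' i * ((sel (e i))ᵀ * sel (e i))) *
            g i := by
            rw [sel_T_sel _ (b i).en.inj, sel_T_sel _ (b j).en.inj, Matrix.one_mul,
              Matrix.mul_one]
            simp only [Matrix.mul_assoc]
        _ = _ := by simp only [Matrix.mul_assoc]
    rw [h4, hC2, Matrix.mul_zero, Matrix.zero_mul, Matrix.mul_zero, Matrix.zero_mul]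
  have key := Pool.Agent.W756.PG.gou Pool.Agent.W589.PG.Sim.sim r (fun i => 2 * p i + q i) (fun i => ⟨(hm i).1, (hm i).2.1⟩) h A1 A2 A3 A4
    (phi e g g' Z) (fun i => sk1 i _ ((b i).skew hB hZ))
  rw [hh] at key
  obtain ⟨y, hy, hyZ⟩ := key
  have hfin : y = Z := by
    refine ext_of_sub (fun i => (b i).en) (hbd y hy) hZc fun i => ?_
    have h1 := congrFun hyZ i
    change g' i * y.submatrix (e i) (e i) * g i = g' i * Z.submatrix (e i) (e i) * g i at h1
    rw [← cc_back (e2 i) (y.submatrix (e i) (e i)), h1, cc_back (e2 i)]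
  rw [← hfin]
  exact hy

end

end Q43.HTM
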