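import Mathlib
import Pool.Agent.Q43.HTM.LieS

/-!
# Separation of `so(T)` from the Lie algebra of a representation of abelian type
-/

set_option autoImplicit false
set_option linter.unusedSectionVars false

open Matrix Finset Module

namespace Q43.HTM

open Pool.Agent.W544.PG
open Pool.Agent.Y95.MT (dg dg_mul dg_add dg_sub dg_smul dg_zero)

noncomputable section

variable {κ : Type} [Fintype κ] [DecidableEq κ] {n r : ℕ} {T : HS n} {c : Fin n → Fin r}
  {p q : Fin r → ℕ}

theorem sepV (hB : T.Big c p q) (hp2 : ∀ i, 2 ≤ p i) {X : Matrix κ κ ℂ}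
    {D : Matrix (Fin n) (Fin n) ℂ} (hDb : BD c D) (hDs : Dᵀ * mC T.Q + mC T.Q * D = 0)
    (hD3 : D * D * D = D) (htr : ∀ i, ∑ a with c a = i, (D * D) a a = 2 * (p i : ℂ))
    {L : Submodule ℂ (Matrix (κ ⊕ Fin n) (κ ⊕ Fin n) ℂ)} (hX : dg X D ∈ L)
    (hfull : ∀ Z : Matrix (Fin n) (Fin n) ℂ, Zᵀ * mC T.Q + mC T.Q * Z = 0 → BD c Z →
      ∃ y, dg y Z ∈ L)
    (hli : ∀ y Z y' Z', dg y Z ∈ L → dg y' Z' ∈ L →
      dg (y * y' - y' * y) (Z * Z' - Z' * Z) ∈ L)
    (hShim : ∀ y Z, dg y Z ∈ L →
      X * (X * (X * y - y * X) - (X * y - y * X) * X) -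
        (X * (X * y - y * X) - (X * y - y * X) * X) * X = X * y - y * X)
    (W : Matrix (Fin n) (Fin n) ℂ) (hW : Wᵀ * mC T.Q + mC T.Q * W = 0) (hWb : BD c W) :
    dg (0 : Matrix κ κ ℂ) W ∈ L := by
  choose e T' b using fun i => exists_blk Pool.Agent.W571.PG.sub hB i
  have hbr : ∀ Z Z' : Matrix (Fin n) (Fin n) ℂ, (∃ y, dg y Z ∈ L) → dg (0 : Matrix κ κ ℂ) Z' ∈ L →
      dg (0 : Matrix κ κ ℂ) (Z * Z' - Z' * Z) ∈ L := by
    rintro Z Z' ⟨V, hV⟩ hZ'
    have h1 := hli _ _ _ _ hV hZ'
    rwa [Matrix.mul_zero, Matrix.zero_mul, sub_zero] at h1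
  have hm : ∀ i, 3 ≤ 2 * p i + q i ∧ 2 * p i + q i ≠ 4 := by
    intro i
    rcases hB.num i with h | ⟨h0, h⟩
    · omega
    · have hlt : 2 * p i < q i := by
        by_contra h'
        rw [Nat.sub_eq_zero_of_le (not_lt.1 h'), zero_mul] at h
        omega
      omega
  have hblock : ∀ (i : Fin r) (y : Matrix (Fin (2 * p i + q i)) (Fin (2 * p i + q i)) ℂ),
      yᵀ * mC (T' i).Q + mC (T' i).Q * y = 0 →
      dg (0 : Matrix κ κ ℂ) (sel (e i) * y * (sel (e i))ᵀ) ∈ L := by
    intro i y hy
    let J : Submodule ℂ (Matrix (Fin (2 * p i + q i)) (Fin (2 * p i + q i)) ℂ) :=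
      { carrier := {y | yᵀ * mC (T' i).Q + mC (T' i).Q * y = 0 ∧
          dg (0 : Matrix κ κ ℂ) (sel (e i) * y * (sel (e i))ᵀ) ∈ L}
        zero_mem' := by
          refine ⟨by simp, ?_⟩
          rw [Matrix.mul_zero, Matrix.zero_mul, dg_zero]
          exact L.zero_mem
        add_mem' := by
          rintro y z ⟨hy1, hy2⟩ ⟨hz1, hz2⟩
          refine ⟨?_, ?_⟩
          · rw [Matrix.transpose_add, Matrix.add_mul, Matrix.mul_add, add_add_add_comm, hy1, hz1,
              add_zero]
          · rw [Matrix.mul_add, Matrix.add_mul]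
            have := L.add_mem hy2 hz2
            rwa [dg_add, add_zero] at this
        smul_mem' := by
          rintro z y ⟨hy1, hy2⟩
          refine ⟨?_, ?_⟩
          · rw [Matrix.transpose_smul, Matrix.smul_mul, Matrix.mul_smul, ← smul_add, hy1,
              smul_zero]
          · rw [Matrix.mul_smul, Matrix.smul_mul]
            have := L.smul_mem z hy2
            rwa [dg_smul, smul_zero] at this }
    have hJmem : ∀ y, y ∈ J ↔ (yᵀ * mC (T' i).Q + mC (T' i).Q * y = 0 ∧
      dg (0 : Matrix κ κ ℂ) (sel (e i) * y * (sel (e i))ᵀ) ∈ L) := fun y => Iff.rfl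
    have h1 := simB (T' i) (hm i).1 (hm i).2 J (fun y hy => hy.1) ?_ ?_ y hy
    · exact h1.2
    · intro Z hZ y hy
      rw [hJmem] at hy ⊢
      refine ⟨?_, ?_⟩
      · have h2 : Zᵀ * mC (T' i).Q = -(mC (T' i).Q * Z) := eq_neg_of_add_eq_zero_left hZ
        have h3 : yᵀ * mC (T' i).Q = -(mC (T' i).Q * y) := eq_neg_of_add_eq_zero_left hy.1
        rw [Matrix.transpose_sub, Matrix.transpose_mul, Matrix.transpose_mul, Matrix.sub_mul,
          Matrix.mul_assoc, Matrix.mul_assoc, h2, h3, Matrix.mul_neg, Matrix.mul_neg,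
          ← Matrix.mul_assoc, ← Matrix.mul_assoc, h2, h3, Matrix.mul_sub]
        simp only [Matrix.neg_mul, neg_neg, Matrix.mul_assoc]
        abel
      · have h2 := hbr _ _ (hfull _ ((b i).sel_skew hB hZ) (sel_BD (b i).en Z)) hy.2
        have h3 : ∀ A B : Matrix (Fin (2 * p i + q i)) (Fin (2 * p i + q i)) ℂ,
            sel (e i) * A * (sel (e i))ᵀ * (sel (e i) * B * (sel (e i))ᵀ) =
            sel (e i) * (A * B) * (sel (e i))ᵀ := by
          intro A B
          calc sel (e i) * A * (sel (e i))ᵀ * (sel (e i) * B * (sel (e i))ᵀ) =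
              sel (e i) * A * ((sel (e i))ᵀ * sel (e i)) * B * (sel (e i))ᵀ := by
                simp only [Matrix.mul_assoc]
            _ = _ := by
                rw [sel_T_sel _ (b i).en.inj, Matrix.mul_one]
                simp only [Matrix.mul_assoc]
        rw [h3, h3, ← Matrix.sub_mul, ← Matrix.mul_sub] at h2
        exact h2
    · obtain ⟨Z0, hZ0, hZs, hZb, hZx⟩ := eg2 T c i (p i) hB.bQ hDb hD3 hDs (htr i) (hp2 i)
      have hZc : BD c Z0 := by
        intro a a' haa'
        by_contra h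
        obtain ⟨h1, h2⟩ := hZb a a' h
        exact haa' (by rw [h1, h2])
      obtain ⟨V, hV⟩ := hfull Z0 hZs hZc
      have h2 := hli _ _ _ _ hX hV
      rw [hZx] at h2
      have h3 := hli _ _ _ _ hX h2
      rw [Matrix.mul_smul, Matrix.smul_mul, ← smul_sub, hZx] at h3
      have h4 := hli _ _ _ _ hX h3
      rw [Matrix.mul_smul, Matrix.smul_mul, ← smul_sub,
        Matrix.mul_smul, Matrix.smul_mul, ← smul_sub, hZx] at h4
      have h5 := L.sub_mem h4 h2
      rw [dg_sub, hShim _ _ hV, sub_self] at h5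
      have h7 : (2 : ℂ) • (2 : ℂ) • (2 : ℂ) • Z0 - (2 : ℂ) • Z0 = (6 : ℂ) • Z0 := by module
      rw [h7] at h5
      have h8 := L.smul_mem (1 / 6 : ℂ) h5
      rw [dg_smul, smul_smul, smul_zero] at h8
      norm_num at h8
      refine ⟨Z0.submatrix (e i) (e i), ?_, ?_⟩
      · rw [hJmem]
        refine ⟨(b i).skew hB hZs, ?_⟩
        have h9 : sel (e i) * Z0.submatrix (e i) (e i) * (sel (e i))ᵀ = Z0 := by
          rw [← (b i).en.mul_sel hZc, Matrix.mul_assoc]
          have h10 : ∀ a a', (Z0 * (sel (e i) * (sel (e i))ᵀ)) a a' = Z0 a a' := by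
            intro a a'
            have h11 : Z0 a a' = (Z0 * (∑ i, sel (e i) * (sel (e i))ᵀ)) a a' := by
              rw [sel_sum (fun i => (b i).en), Matrix.mul_one]
            rw [h11, Matrix.mul_sum, Matrix.sum_apply, Finset.sum_eq_single i]
            · intro j _ hj
              rw [Matrix.mul_apply]
              refine Finset.sum_eq_zero fun l _ => ?_
              by_cases hl : c l = i
              · have h12 : (sel (e j) * (sel (e j))ᵀ) l a' = 0 := by
                  rw [Matrix.mul_apply]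
                  refine Finset.sum_eq_zero fun l' _ => ?_
                  rw [sel, Matrix.of_apply, if_neg, zero_mul]
                  intro h
                  exact hj (by rw [← hl, ← h, (b j).en.col])
                rw [h12, mul_zero]
              · have h12 : Z0 a l = 0 := by
                  by_contra h
                  exact hl (hZb a l h).2
                rw [h12, zero_mul]
            · simp
          ext a a'
          exact h10 a a'
        rw [h9]
        exact h8
      · intro h0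
        apply hZ0
        ext a a'
        by_contra h
        obtain ⟨h1, h2⟩ := hZb a a' h
        obtain ⟨j, rfl⟩ := (b i).en.surj a h1
        obtain ⟨j', rfl⟩ := (b i).en.surj a' h2
        exact h (congrFun (congrFun h0 j) j')
  have hsum : dg (0 : Matrix κ κ ℂ) W = ∑ i, dg (0 : Matrix κ κ ℂ)
      (sel (e i) * W.submatrix (e i) (e i) * (sel (e i))ᵀ) := by
    conv_lhs => rw [sel_dec (fun i => (b i).en) hWb]
    ext x y
    rw [Matrix.sum_apply]
    rcases x with x | x <;> rcases y with y | y <;> simp [dg, Matrix.sum_apply]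
  rw [hsum]
  refine Submodule.sum_mem _ fun i _ => ?_
  apply hblock
  exact (b i).skew hB hW

end

end Q43.HTM
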