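import Mathlib
import Pool.Agent.Y95.MT.RHS
import Pool.Agent.Q43.HTM.Sep

/-!
# The Lie algebra of the monodromy group
-/

set_option autoImplicit false
set_option linter.unusedSectionVars false

open Finset Module

namespace Q43.HTM

open MvPolynomial Matrix Pool.Agent.W528.ZC Pool.Agent.W544.PG
open Pool.Agent.Y95.MT hiding col

noncomputable section

section tangent

variable {K : Type} [Field K] {ι : Type} [Fintype ι] [DecidableEq ι]

/-- the derivative at `1` in the direction of a tangent vector -/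
theorem ev_D_one (y : Matrix ι ι K) (f : MvPolynomial (ι × ι) K) :
    ev 1 (D y f) = ∑ x : ι × ι, y x.1 x.2 * ev 1 (pderiv x f) := by
  induction f using MvPolynomial.induction_on with
  | C a =>
    rw [D_C', map_zero]
    symm
    refine Finset.sum_eq_zero fun x _ => ?_
    rw [pderiv_C, map_zero, mul_zero]
  | add f g hf hg =>
    rw [map_add, map_add, hf, hg, ← Finset.sum_add_distrib]
    refine Finset.sum_congr rfl fun x _ => ?_
    rw [map_add, map_add, mul_add]
  | mul_X f q hf =>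
    rw [Derivation.leibniz, map_add, smul_eq_mul, smul_eq_mul, map_mul, map_mul, hf, D_X',
      Pool.Agent.W528.ZC.ev_X]
    have h2 : ev 1 (lin y q) = y q.1 q.2 := by
      unfold lin
      rw [map_sum, Finset.sum_eq_single q.1]
      · rw [map_mul, Pool.Agent.W528.ZC.ev_X, Pool.Agent.W528.ZC.ev_C, Matrix.one_apply_eq, mul_one]
      · intro b _ hb
        rw [map_mul, Pool.Agent.W528.ZC.ev_X, Matrix.one_apply_ne (Ne.symm hb), mul_zero]
      · intro h
        exact absurd (Finset.mem_univ _) h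
    rw [h2]
    have h3 : ∀ x : ι × ι, y x.1 x.2 * ev 1 (pderiv x (f * X q)) =
        y x.1 x.2 * ev 1 (pderiv x f) * (1 : Matrix ι ι K) q.1 q.2 +
        (if x = q then y q.1 q.2 * ev 1 f else 0) := by
      intro x
      rw [Derivation.leibniz, smul_eq_mul, smul_eq_mul, map_add, map_mul, map_mul,
        Pool.Agent.W528.ZC.ev_X, pderiv_X]
      split_ifs with hx
      · subst hx
        rw [Pi.single_eq_same, map_one]
        ring
      · rw [Pi.single_eq_of_ne (Ne.symm hx), map_zero]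
        ring
    rw [Finset.sum_congr rfl fun x _ => h3 x, Finset.sum_add_distrib, Finset.sum_ite_eq',
      if_pos (Finset.mem_univ _), ← Finset.sum_mul]
    ring

theorem ev_D_X (y : Matrix ι ι K) (q : ι × ι) : ev 1 (D y (X q)) = y q.1 q.2 := by
  rw [ev_D_one, Finset.sum_eq_single q]
  · rw [pderiv_X, Pi.single_eq_same, map_one, mul_one]
  · intro x _ hx
    rw [pderiv_X, Pi.single_eq_of_ne (Ne.symm hx), map_zero, mul_zero]
  · intro h
    exact absurd (Finset.mem_univ _) h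

/-- left translations commute with the derivations -/
theorem D_sub_left (y a : Matrix ι ι K) (f : MvPolynomial (ι × ι) K) :
    D y (sub a 1 f) = sub a 1 (D y f) := by
  induction f using MvPolynomial.induction_on with
  | C b =>
    have h1 := (sub a (1 : Matrix ι ι K)).commutes b
    rw [MvPolynomial.algebraMap_eq] at h1
    rw [h1, D_C', map_zero]
  | add f g hf hg => rw [map_add, map_add, hf, hg, map_add, map_add]
  | mul_X f q hf =>
    rw [map_mul, Derivation.leibniz, Derivation.leibniz, map_add, hf]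
    simp only [smul_eq_mul, map_mul]
    congr 2
    have h1 : ∀ q : ι × ι, sub a 1 (X q) = ∑ i, C (a q.1 i) * X (i, q.2) := by
      intro q
      rw [Pool.Agent.W528.ZC.sub_X]
      refine Finset.sum_congr rfl fun i _ => ?_
      rw [Finset.sum_eq_single q.2]
      · rw [Matrix.one_apply_eq, mul_one]
      · intro j _ hj
        rw [Matrix.one_apply_ne hj, mul_zero, C_0, zero_mul]
      · intro h
        exact absurd (Finset.mem_univ _) h
    rw [h1, D_X', map_sum]
    unfold lin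
    rw [map_sum]
    have h2 : ∀ i, D y (C (a q.1 i) * X (i, q.2)) =
        ∑ k, C (a q.1 i) * (C (y k q.2) * X (i, k)) := by
      intro i
      rw [← smul_eq_C_mul, Derivation.map_smul, D_X', smul_eq_C_mul]
      unfold lin
      rw [Finset.mul_sum]
    simp only [h2]
    rw [Finset.sum_comm]
    refine Finset.sum_congr rfl fun k _ => ?_
    have h3 := (sub a (1 : Matrix ι ι K)).commutes (y k q.2)
    rw [MvPolynomial.algebraMap_eq] at h3
    rw [map_mul, h3, h1, Finset.mul_sum]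
    refine Finset.sum_congr rfl fun i _ => ?_
    ring

end tangent

section ideal

variable {k K : Type} [Field k] [Field K] {ι : Type} [Fintype ι] [DecidableEq ι] {Γ : Type}
  [Group Γ]

/-- the tangent space at `1` of the Zariski closure -/
def LieM (ρ : Γ →* Matrix ι ι k) (j : k →+* K) : Set (Matrix ι ι K) :=
  {y | ∀ f ∈ IG ρ j, ∑ x : ι × ι, y x.1 x.2 * ev 1 (pderiv x f) = 0}

variable {ρ : Γ →* Matrix ι ι k} {j : k →+* K}

theorem mem_LieM {y : Matrix ι ι K} : y ∈ LieM ρ j ↔ y ∈ LS (IG ρ j) := by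
  constructor
  · rintro h f ⟨Δ, hΔ, hf⟩
    refine ⟨Δ, hΔ, fun s hs => ?_⟩
    have h1 : sub ((ρ s).map j) 1 f ∈ IG ρ j := by
      refine ⟨Δ, hΔ, fun t ht => ?_⟩
      rw [ev_sub, mul_one, ← Matrix.map_mul, ← map_mul]
      exact hf _ (Δ.mul_mem hs ht)
    have h2 := h _ h1
    rw [← ev_D_one, D_sub_left, ev_sub, mul_one, mul_one] at h2
    exact h2
  · intro h f hf
    rw [← ev_D_one]
    exact InZS_one _ (h f hf)

theorem ev_D_IG {y : Matrix ι ι K} (hy : y ∈ LS (IG ρ j)) {f : MvPolynomial (ι × ι) K}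
    (hf : f ∈ IG ρ j) : ev 1 (D y f) = 0 := InZS_one _ (hy f hf)

/-- the Lie algebra is stable under conjugation -/
theorem LS_conjG (σ : Γ) {y : Matrix ι ι K} (hy : y ∈ LS (IG ρ j)) :
    (ρ σ).map j * y * (ρ σ⁻¹).map j ∈ LS (IG ρ j) := by
  have e1 : ∀ τ : Γ, (ρ τ).map j * (ρ τ⁻¹).map j = 1 := by
    intro τ
    rw [← Matrix.map_mul, ← map_mul, mul_inv_cancel, map_one, Matrix.map_one _ (map_zero _)
      (map_one _)]
  have e2 : ∀ τ : Γ, ∀ f ∈ IG ρ j, sub ((ρ τ).map j) ((ρ τ⁻¹).map j) f ∈ IG ρ j := by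
    rintro τ f ⟨Δ, hΔ, hf⟩
    have _ : Δ.normalCore.FiniteIndex := inferInstance
    refine ⟨Δ.normalCore, inferInstance, fun s hs => ?_⟩
    rw [ev_sub, ← Matrix.map_mul, ← map_mul, ← Matrix.map_mul, ← map_mul]
    exact hf _ (Δ.normalCore_le (Δ.normalCore_normal.conj_mem s hs τ))
  have e3 := e1 σ⁻¹
  rw [inv_inv] at e3
  refine LS_conj (e1 σ) e3 (e2 σ) ?_ hy
  have h1 := e2 σ⁻¹
  rwa [inv_inv] at h1

end ideal

/-! ### Direct sums -/

section sum

variable {ℓ : ℕ} [Fact ℓ.Prime] {n r : ℕ} {κ : Type} [Fintype κ] [DecidableEq κ] {Γ : Type}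
  [Group Γ] {c : Fin n → Fin r} {T : HS n} {β : Γ →* Matrix (Fin n) (Fin n) ℤ_[ℓ]}
  {v : Γ →* Matrix κ κ ℚ_[ℓ]} {j : ℚ_[ℓ] →+* ℂ} {p q : Fin r → ℕ}

theorem ev_D_upK (Y : Matrix (κ ⊕ Fin n) (κ ⊕ Fin n) ℂ) (f : MvPolynomial (κ × κ) ℂ) :
    ev 1 (D Y (upK (n := n) f)) = ev 1 (D Y.toBlocks₁₁ f) := by
  induction f using MvPolynomial.induction_on with
  | C a =>
    have h1 : upK (n := n) (C a : MvPolynomial (κ × κ) ℂ) = C a := by
      unfold upK
      rw [aeval_C, MvPolynomial.algebraMap_eq]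
    rw [h1, D_C', D_C', map_zero, map_zero]
  | add f g hf hg =>
    have h1 : upK (n := n) (f + g) = upK (n := n) f + upK (n := n) g := by
      unfold upK
      rw [map_add]
    rw [h1, map_add, map_add, map_add, map_add, hf, hg]
  | mul_X f q hf =>
    have h1 : upK (n := n) (f * X q) = upK (n := n) f * X (Sum.inl q.1, Sum.inl q.2) := by
      unfold upK
      rw [map_mul, aeval_X]
    have h2 : (1 : Matrix (κ ⊕ Fin n) (κ ⊕ Fin n) ℂ).toBlocks₁₁ = 1 := by
      ext x y
      simp [Matrix.toBlocks₁₁, Matrix.one_apply]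
    have h3 : (1 : Matrix (κ ⊕ Fin n) (κ ⊕ Fin n) ℂ) (Sum.inl q.1) (Sum.inl q.2) =
        (1 : Matrix κ κ ℂ) q.1 q.2 := by
      simp [Matrix.one_apply]
    rw [h1, Derivation.leibniz, Derivation.leibniz, map_add, map_add]
    simp only [smul_eq_mul, map_mul]
    rw [hf, ev_D_X, ev_D_X, Pool.Agent.W528.ZC.ev_X, Pool.Agent.W528.ZC.ev_X, ev_upK, h2, h3]
    rfl

theorem tot_map (s : Γ) : (tot v β s).map j = fromBlocks ((v s).map j) 0 0 ((qm (β s)).map j) :=
  fb_map _ _ _

/-- the shape of the elements of the Lie algebra -/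
theorem LS_shape (hg : GalT c T.Q β) {Y : Matrix (κ ⊕ Fin n) (κ ⊕ Fin n) ℂ}
    (hY : Y ∈ LS (IG (tot v β) j)) :
    ∃ y Z, Y = dg y Z ∧ Zᵀ * mC T.Q + mC T.Q * Z = 0 ∧ BD c Z ∧ y ∈ LS (IG v j) := by
  have hoff : ∀ q : (κ ⊕ Fin n) × (κ ⊕ Fin n),
      (∀ s, (tot v β s).map j q.1 q.2 = 0) → Y q.1 q.2 = 0 := by
    intro q hq
    have h1 : (X q : MvPolynomial ((κ ⊕ Fin n) × (κ ⊕ Fin n)) ℂ) ∈ IG (tot v β) j :=
      ⟨⊤, inferInstance, fun s _ => by rw [Pool.Agent.W528.ZC.ev_X]; exact hq s⟩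
    have h2 := ev_D_IG hY h1
    rwa [ev_D_X] at h2
  refine ⟨Y.toBlocks₁₁, Y.toBlocks₂₂, ?_, ?_, ?_, ?_⟩
  · ext x y
    rcases x with x | x <;> rcases y with y | y
    · rfl
    · exact hoff (Sum.inl x, Sum.inr y) fun s => by rw [tot_map]; rfl
    · exact hoff (Sum.inr x, Sum.inl y) fun s => by rw [tot_map]; rfl
    · rfl
  · ext a b
    obtain ⟨f, hf⟩ : ∃ f : MvPolynomial ((κ ⊕ Fin n) × (κ ⊕ Fin n)) ℂ,
      f = ∑ x, ∑ y, C (mC T.Q x y) * (X (Sum.inr x, Sum.inr a) * X (Sum.inr y, Sum.inr b)) -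
        C (mC T.Q a b) := ⟨_, rfl⟩
    have hfI : f ∈ IG (tot v β) j := by
      refine ⟨⊤, inferInstance, fun s _ => ?_⟩
      have h1 := congrFun (congrFun (hg.formK j s) a) b
      rw [← mC_eq] at h1
      rw [hf, map_sub, map_sum, Pool.Agent.W528.ZC.ev_C, sub_eq_zero, ← h1, Matrix.mul_apply]
      simp only [map_sum, map_mul, Pool.Agent.W528.ZC.ev_C, Pool.Agent.W528.ZC.ev_X,
        Matrix.mul_apply, Finset.sum_mul, tot_map, Matrix.fromBlocks_apply₂₂,
        Matrix.transpose_apply]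
      rw [Finset.sum_comm]
      refine Finset.sum_congr rfl fun y _ => Finset.sum_congr rfl fun x _ => ?_
      ring
    have h2 := ev_D_IG hY hfI
    rw [hf, map_sub, D_C', sub_zero] at h2
    simp only [map_sum] at h2
    have h3 : ∀ x y, ev 1 (D Y (C (mC T.Q x y) *
        (X (Sum.inr x, Sum.inr a) * X (Sum.inr y, Sum.inr b)))) =
        mC T.Q x y * ((if x = a then 1 else 0) * Y (Sum.inr y) (Sum.inr b) +
          (if y = b then 1 else 0) * Y (Sum.inr x) (Sum.inr a)) := by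
      intro x y
      rw [← smul_eq_C_mul, Derivation.map_smul, map_smul, Derivation.leibniz, map_add, smul_eq_mul,
        smul_eq_mul, smul_eq_mul, map_mul, map_mul, ev_D_X, ev_D_X, Pool.Agent.W528.ZC.ev_X,
        Pool.Agent.W528.ZC.ev_X]
      simp only [Matrix.one_apply, Sum.inr.injEq]
    simp only [h3] at h2
    rw [Matrix.add_apply, Matrix.mul_apply, Matrix.mul_apply, Matrix.zero_apply]
    have hQs : ∀ x y, mC T.Q x y = mC T.Q y x := by
      intro x y
      have h4 := congrFun (congrFun T.symm x) y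
      rw [Matrix.transpose_apply] at h4
      simp [mC, h4]
    have h4 : ∑ x, ∑ y, mC T.Q x y * ((if x = a then 1 else 0) * Y (Sum.inr y) (Sum.inr b) +
          (if y = b then 1 else 0) * Y (Sum.inr x) (Sum.inr a)) =
        ∑ y, mC T.Q a y * Y (Sum.inr y) (Sum.inr b) +
        ∑ x, Y (Sum.inr x) (Sum.inr a) * mC T.Q x b := by
      simp only [mul_add, Finset.sum_add_distrib]
      congr 1
      · rw [Finset.sum_eq_single a]
        · simp
        · intro x _ hx
          simp [hx]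
        · intro h
          exact absurd (Finset.mem_univ _) h
      · refine Finset.sum_congr rfl fun x _ => ?_
        rw [Finset.sum_eq_single b]
        · simp [mul_comm]
        · intro y _ hy
          simp [hy]
        · intro h
          exact absurd (Finset.mem_univ _) h
    rw [h4] at h2
    rw [← h2, add_comm]
    rfl
  · intro a b hab
    refine hoff (Sum.inr a, Sum.inr b) fun s => ?_
    rw [tot_map]
    exact hg.bdK j s a b hab
  · rw [← mem_LieM]
    intro f hf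
    rw [← ev_D_one, ← ev_D_upK (n := n)]
    refine ev_D_IG hY ?_
    obtain ⟨Δ, hΔ, hf⟩ := hf
    refine ⟨Δ, hΔ, fun s hs => ?_⟩
    rw [ev_upK, tot_map, Matrix.toBlocks_fromBlocks₁₁]
    exact hf s hs

/-- the representation on `T ⊗ ℂ` -/
def Rj (β : Γ →* Matrix (Fin n) (Fin n) ℤ_[ℓ]) (j : ℚ_[ℓ] →+* ℂ) :
    Γ →* Matrix (Fin n) (Fin n) ℂ where
  toFun s := (qm (β s)).map j
  map_one' := by rw [map_one, qm_one, Matrix.map_one _ (map_zero _) (map_one _)]
  map_mul' s t := by rw [map_mul, qm_mul, Matrix.map_mul]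

theorem Rj_apply (s : Γ) : Rj β j s = (qm (β s)).map j := rfl

/-- the Lie algebra of the monodromy group contains `so(T)` -/
theorem so_mon (hB : T.Big c p q) (hp2 : ∀ i, 2 ≤ p i) (hcop : ∀ i, Nat.Coprime (p i) (q i))
    (hg : GalT c T.Q β) (hirr : ∀ i, Irr c (Rj β j) i)
    (hiso : ∀ i k, i ≠ k → NonIso c (Rj β j) i k) {Xo : Matrix κ κ ℂ}
    {Do : Matrix (Fin n) (Fin n) ℂ} (hXD : dg Xo Do ∈ LS (IG (tot v β) j))
    (hD3 : Do * Do * Do = Do) (htr : ∀ i, ∑ a with c a = i, (Do * Do) a a = 2 * (p i : ℂ))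
    (hShim : ∀ y ∈ LS (IG v j),
      Xo * (Xo * (Xo * y - y * Xo) - (Xo * y - y * Xo) * Xo) -
        (Xo * (Xo * y - y * Xo) - (Xo * y - y * Xo) * Xo) * Xo = Xo * y - y * Xo)
    (Z : Matrix (Fin n) (Fin n) ℂ) (hZ : Zᵀ * mC T.Q + mC T.Q * Z = 0) (hZb : BD c Z) :
    dg (0 : Matrix κ κ ℂ) Z ∈ LS (IG (tot v β) j) := by
  have hinj : ∀ {y y' : Matrix κ κ ℂ} {W W' : Matrix (Fin n) (Fin n) ℂ}, dg y W = dg y' W' →
      y = y' ∧ W = W' := by
    intro y y' W W' h
    unfold dg at h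
    rw [Matrix.fromBlocks_inj] at h
    exact ⟨h.1, h.2.2.2⟩
  obtain ⟨y0, Z0, e0, hDs, hDb, -⟩ := LS_shape hg hXD
  obtain ⟨-, rfl⟩ := hinj e0
  let hh : Submodule ℂ (Matrix (Fin n) (Fin n) ℂ) :=
    { carrier := {Z | Zᵀ * mC T.Q + mC T.Q * Z = 0 ∧ BD c Z ∧
        ∃ y, dg y Z ∈ LS (IG (tot v β) j)}
      zero_mem' := by
        refine ⟨by simp, fun _ _ _ => rfl, 0, ?_⟩
        rw [dg_zero]
        exact Submodule.zero_mem _
      add_mem' := by
        rintro a b ⟨h1, h2, y, h3⟩ ⟨h4, h5, y', h6⟩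
        refine ⟨?_, fun x y hxy => ?_, y + y', ?_⟩
        · rw [Matrix.transpose_add, add_mul, mul_add,
            show aᵀ * mC T.Q + bᵀ * mC T.Q + (mC T.Q * a + mC T.Q * b) =
              (aᵀ * mC T.Q + mC T.Q * a) + (bᵀ * mC T.Q + mC T.Q * b) by abel, h1, h4, add_zero]
        · rw [Matrix.add_apply, h2 x y hxy, h5 x y hxy, add_zero]
        · rw [← dg_add]
          exact Submodule.add_mem _ h3 h6
      smul_mem' := by
        rintro z a ⟨h1, h2, y, h3⟩
        refine ⟨?_, fun x y hxy => ?_, z • y, ?_⟩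
        · rw [Matrix.transpose_smul, Matrix.smul_mul, Matrix.mul_smul, ← smul_add, h1, smul_zero]
        · rw [Matrix.smul_apply, h2 x y hxy, smul_zero]
        · rw [← dg_smul]
          exact Submodule.smul_mem _ z h3 }
  have hmem : ∀ Z, (∃ y, dg y Z ∈ LS (IG (tot v β) j)) → Z ∈ hh := by
    rintro Z ⟨y, hy⟩
    obtain ⟨y1, Z1, e1, h1, h2, -⟩ := LS_shape hg hy
    obtain ⟨-, rfl⟩ := hinj e1
    exact ⟨h1, h2, y, hy⟩
  have hfull : ∀ Z : Matrix (Fin n) (Fin n) ℂ, Zᵀ * mC T.Q + mC T.Q * Z = 0 → BD c Z →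
      ∃ y, dg y Z ∈ LS (IG (tot v β) j) := by
    intro Z hZ hZb
    have key : Z ∈ hh := by
      refine mainGal (hh0 := hh) (R := Rj β j) (D := Do) hB hcop (fun s => hg.bdK j s) (fun s => ?_) hirr hiso
        (fun y hy => hy.2.1) (fun y hy => hy.1) ?_ ?_ (hmem _ ⟨Xo, hXD⟩) hD3 htr Z hZ hZb
      · have h1 := hg.formK j s
        rw [← mC_eq] at h1
        exact h1
      · rintro y ⟨-, -, y', h3⟩ z ⟨-, -, z', h6⟩
        exact hmem _ ⟨_, dg_br h3 h6⟩
      · rintro s y ⟨-, -, y', h3⟩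
        have h4 := LS_conjG s h3
        rw [tot_map, tot_map] at h4
        refine hmem _ ⟨(v s).map j * y' * (v s⁻¹).map j, ?_⟩
        have h5 : fromBlocks ((v s).map j) 0 0 ((qm (β s)).map j) * dg y' y *
            fromBlocks ((v s⁻¹).map j) 0 0 ((qm (β s⁻¹)).map j) =
            dg ((v s).map j * y' * (v s⁻¹).map j) (Rj β j s * y * Rj β j s⁻¹) := by
          unfold dg
          rw [Pool.Agent.Y95.MT.fb_mul, Pool.Agent.Y95.MT.fb_mul]
          rfl
        rwa [h5] at h4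
    exact key.2.2
  refine sepV hB hp2 hDb hDs hD3 htr hXD hfull (fun y Z y' Z' h h' => dg_br h h') (fun y Z h => ?_)
    Z hZ hZb
  obtain ⟨y1, Z1, e1, -, -, h3⟩ := LS_shape hg h
  obtain ⟨rfl, -⟩ := hinj e1
  exact hShim y h3

end sum

end

end Q43.HTM
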