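import Mathlib
import Pool.Agent.Q43.HTM.Mon

/-!
# The Mumford-Tate conjecture for sums: the Hodge-Tate version
-/

set_option autoImplicit false
set_option linter.unusedSectionVars false

open Finset Module

namespace Q43.HTM

open MvPolynomial Matrix Pool.Agent.W528.ZC Pool.Agent.W544.PG
open Pool.Agent.Y95.MT hiding col

noncomputable section

/-- The Mumford-Tate conjecture, complex points. -/
def MTCj {ι : Type} [Fintype ι] [DecidableEq ι] {ℓ : ℕ} [Fact ℓ.Prime] {Γ : Type} [Group Γ]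
    (h : ℂ → Matrix ι ι ℂ) (ρ : Γ →* Matrix ι ι ℚ_[ℓ]) (j : ℚ_[ℓ] →+* ℂ) : Prop :=
  ∀ g : Matrix ι ι ℂ, g.det ≠ 0 → (InZS (IG ρ j) g ↔ g ∈ MTgroup h)

variable {ℓ : ℕ} [Fact ℓ.Prime] {n r : ℕ} {κ : Type} [Fintype κ] [DecidableEq κ] {Γ : Type}
  [Group Γ] {c : Fin n → Fin r} {T : HS n} {β : Γ →* Matrix (Fin n) (Fin n) ℤ_[ℓ]}
  {v : Γ →* Matrix κ κ ℚ_[ℓ]} {j : ℚ_[ℓ] →+* ℂ} {p q : Fin r → ℕ} {hV : ℂ → Matrix κ κ ℂ}

/-- the monodromy group of the direct sum -/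
theorem mon_prod (hg : GalT c T.Q β) (hbQ : BD c T.Q)
    (hso : ∀ Z : Matrix (Fin n) (Fin n) ℂ, Zᵀ * mC T.Q + mC T.Q * Z = 0 → BD c Z →
      dg (0 : Matrix κ κ ℂ) Z ∈ LS (IG (tot v β) j))
    {g : Matrix (κ ⊕ Fin n) (κ ⊕ Fin n) ℂ} :
    InZS (IG (tot v β) j) g ↔ g = fromBlocks g.toBlocks₁₁ 0 0 g.toBlocks₂₂ ∧
      InZS (IG v j) g.toBlocks₁₁ ∧ InSO c T.Q g.toBlocks₂₂ := by
  obtain ⟨Δ₀, hΔ₀, hdet⟩ := hg.exists_det hbQ j
  have hSOSt : ∀ {t : Matrix (Fin n) (Fin n) ℂ}, InSO c T.Q t →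
      fromBlocks 1 0 0 t ∈ St (IG (tot v β) j) := fun ht =>
    SO_St (T := T) hbQ (fun Z hZ hZb => hso Z hZ hZb) ht
  constructor
  · intro h
    obtain ⟨h1, h2⟩ := (PSO_iff (c := c) (Q := T.Q) g).1 fun f hf => by
      rw [← ev_toK]
      refine h _ ⟨Δ₀, hΔ₀, fun s hs => ?_⟩
      rw [ev_toK]
      refine (PSO_iff (c := c) (Q := T.Q) _).2 ⟨?_, ?_⟩ f hf
      · rw [tot_map, Matrix.toBlocks_fromBlocks₁₁, Matrix.toBlocks_fromBlocks₂₂]
      · rw [tot_map, Matrix.toBlocks_fromBlocks₂₂]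
        exact hg.SO j (hdet s hs)
    refine ⟨h1, ?_, h2⟩
    rintro f ⟨Δ, hΔ, hf⟩
    rw [← ev_upK (n := n)]
    refine h _ ⟨Δ, hΔ, fun s hs => ?_⟩
    rw [ev_upK, tot_map, Matrix.toBlocks_fromBlocks₁₁]
    exact hf s hs
  · rintro ⟨h1, h2, h3⟩ f hf
    have hSt := hSOSt h3
    have h4 : g = 1 * fromBlocks g.toBlocks₁₁ 0 0 1 * fromBlocks 1 0 0 g.toBlocks₂₂ := by
      rw [one_mul, Pool.Agent.Y95.MT.fb_mul, mul_one, one_mul]
      exact h1
    rw [h4, ← ev_sub]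
    have h5 := hSt f hf
    generalize sub 1 (fromBlocks 1 0 0 g.toBlocks₂₂) f = f' at h5
    rw [← ev_dnK]
    refine h2 _ ?_
    obtain ⟨Δ₁, hΔ₁, hu⟩ := exists_unif (tot v β) j
    refine ⟨Δ₀ ⊓ Δ₁, inferInstance, fun s hs => ?_⟩
    rw [ev_dnK]
    have hSt' := hSOSt (hg.SO j (hdet s⁻¹ (Δ₀.inv_mem hs.1)))
    have h6 := hu _ (hSt' f' h5) s hs.2
    rw [ev_sub, tot_map, one_mul, Pool.Agent.Y95.MT.fb_mul, mul_one] at h6
    have h7 : (qm (β s)).map j * (qm (β s⁻¹)).map j = 1 := by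
      rw [← Matrix.map_mul, ← qm_mul, ← map_mul, mul_inv_cancel, map_one, qm_one,
        Matrix.map_one _ (map_zero _) (map_one _)]
    rwa [h7] at h6

/-- complex points of the Mumford-Tate group of the direct sum -/
theorem MT_iff (hB : T.Big c p q) (hVd : ∀ z, z ≠ 0 → (hV z).det ≠ 0)
    (hx : fromBlocks 0 0 0 T.x ∈ LS (SH (hM hV T))) {g : Matrix (κ ⊕ Fin n) (κ ⊕ Fin n) ℂ} :
    g ∈ MTgroup (hM hV T) ↔ g = fromBlocks g.toBlocks₁₁ 0 0 g.toBlocks₂₂ ∧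
      g.toBlocks₁₁ ∈ MTgroup hV ∧ InSO c T.Q g.toBlocks₂₂ := by
  constructor
  · intro h
    obtain ⟨w, t, rfl, hw, ht⟩ := MT_le (c := c) hVd hB.bQ hB.bx h
    rw [Matrix.toBlocks_fromBlocks₁₁, Matrix.toBlocks_fromBlocks₂₂]
    exact ⟨rfl, hw, ht⟩
  · rintro ⟨h1, h2, h3⟩
    rw [h1]
    exact MT_eq hB hVd hx h2 h3

theorem SO_one_dot (hB : T.Big c p q) (hVd : ∀ z, z ≠ 0 → (hV z).det ≠ 0)
    (hx : fromBlocks 0 0 0 T.x ∈ LS (SH (hM hV T)))
    (h : MTCj (hM hV T) (tot v β) j) {t : Matrix (Fin n) (Fin n) ℂ} (ht : InSO c T.Q t) :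
    InZS (IG (tot v β) j) (fromBlocks 1 0 0 t) := by
  rw [h _ (by
    rw [fb_det, Matrix.det_one, one_mul]
    exact InSO_det (Pool.Agent.W74.PG.det_ne T) ht)]
  exact SO_MT hB hVd hx ht

theorem Irr_of_MTC (hB : T.Big c p q) (hVd : ∀ z, z ≠ 0 → (hV z).det ≠ 0)
    (hx : fromBlocks 0 0 0 T.x ∈ LS (SH (hM hV T)))
    (h : MTCj (hM hV T) (tot v β) j) (i : Fin r) : Irr c (Rj β j) i := by
  intro Δ hΔ W hW hWs
  refine SO_irr (F := ℂ) T.symm hB.bQ (Pool.Agent.W74.PG.det_ne T) (Big.card hB i) hW fun t ht w hw => ?_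
  by_contra hcon
  obtain ⟨φ, hφ, hφW⟩ := Submodule.exists_le_ker_of_notMem hcon
  have hg := SO_one_dot hB hVd hx h ht
  have hlin : ∀ u : Fin n → ℂ, φ u = ∑ a, φ (Pi.single a 1) * u a := by
    intro u
    conv_lhs => rw [← Finset.univ_sum_single u]
    rw [map_sum]
    refine Finset.sum_congr rfl fun a _ => ?_
    rw [show (Pi.single a (u a) : Fin n → ℂ) = u a • Pi.single a 1 by
      rw [← Pi.single_smul, smul_eq_mul, mul_one], map_smul, smul_eq_mul, mul_comm]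
  obtain ⟨f, hf⟩ : ∃ f : MvPolynomial ((κ ⊕ Fin n) × (κ ⊕ Fin n)) ℂ,
      f = ∑ a, ∑ b, C (φ (Pi.single a 1) * w b) * X (Sum.inr a, Sum.inr b) := ⟨_, rfl⟩
  have hev : ∀ (g : Matrix κ κ ℂ) (M : Matrix (Fin n) (Fin n) ℂ),
      ev (fromBlocks g 0 0 M) f = φ (M *ᵥ w) := by
    intro g M
    rw [hf, hlin, map_sum]
    refine Finset.sum_congr rfl fun a _ => ?_
    rw [Matrix.mulVec, dotProduct, Finset.mul_sum, map_sum]
    refine Finset.sum_congr rfl fun b _ => ?_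
    rw [map_mul, Pool.Agent.W528.ZC.ev_X, Pool.Agent.W528.ZC.ev_C]
    simp only [Matrix.fromBlocks_apply₂₂]
    ring
  have h1 := hg f ⟨Δ, hΔ, fun s hs => by
    rw [tot_map, hev]
    exact LinearMap.mem_ker.1 (hφW (hWs s hs w hw))⟩
  rw [hev] at h1
  exact hφ h1

theorem NonIso_of_MTC (hB : T.Big c p q) (hVd : ∀ z, z ≠ 0 → (hV z).det ≠ 0)
    (hx : fromBlocks 0 0 0 T.x ∈ LS (SH (hM hV T)))
    (h : MTCj (hM hV T) (tot v β) j) (i k : Fin r) (hik : i ≠ k) : NonIso c (Rj β j) i k := by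
  intro Δ hΔ A hA hAs
  -- `A` commutes with the special orthogonal groups
  have hcomm : ∀ t : Matrix (Fin n) (Fin n) ℂ, InSO c T.Q t → A * t = t * A := by
    intro t ht
    have hg := SO_one_dot hB hVd hx h ht
    ext a b
    obtain ⟨f, hf⟩ : ∃ f : MvPolynomial ((κ ⊕ Fin n) × (κ ⊕ Fin n)) ℂ,
        f = ∑ x, C (A a x) * X (Sum.inr x, Sum.inr b) -
          ∑ x, X (Sum.inr a, Sum.inr x) * C (A x b) := ⟨_, rfl⟩
    have hev : ∀ (g : Matrix κ κ ℂ) (M : Matrix (Fin n) (Fin n) ℂ),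
        ev (fromBlocks g 0 0 M) f = (A * M) a b - (M * A) a b := by
      intro g M
      rw [hf, map_sub, map_sum, map_sum, Matrix.mul_apply, Matrix.mul_apply]
      congr 1
      · refine Finset.sum_congr rfl fun x _ => ?_
        rw [map_mul, Pool.Agent.W528.ZC.ev_X, Pool.Agent.W528.ZC.ev_C]
        rfl
      · refine Finset.sum_congr rfl fun x _ => ?_
        rw [map_mul, Pool.Agent.W528.ZC.ev_X, Pool.Agent.W528.ZC.ev_C]
        rfl
    have h1 := hg f ⟨Δ, hΔ, fun s hs => by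
      have h2 := hAs s hs
      rw [Rj_apply] at h2
      rw [tot_map, hev, h2, sub_self]⟩
    rw [hev] at h1
    exact sub_eq_zero.1 h1
  have hQs : (T.Q.map (algebraMap ℚ ℂ))ᵀ = T.Q.map (algebraMap ℚ ℂ) := by
    rw [← Matrix.transpose_map, T.symm]
  have hQb : BD c (T.Q.map (algebraMap ℚ ℂ)) := fun x y h => by
    rw [Matrix.map_apply, hB.bQ x y h, map_zero]
  have hQd : (T.Q.map (algebraMap ℚ ℂ)).det ≠ 0 := by
    have h2 : (T.Q.map (algebraMap ℚ ℂ)).det = algebraMap ℚ ℂ T.Q.det :=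
      ((algebraMap ℚ ℂ).map_det T.Q).symm
    rw [h2]
    exact (map_ne_zero _).2 (Pool.Agent.W74.PG.det_ne T)
  obtain ⟨W, hWd⟩ : ∃ W : Submodule ℂ (Fin n → ℂ),
      W = Pool.Agent.Y95.MT.col c i ⊓ LinearMap.ker (Matrix.toLin' A) := ⟨_, rfl⟩
  have hmW : ∀ w, w ∈ W ↔ w ∈ (Pool.Agent.Y95.MT.col c i : Submodule ℂ (Fin n → ℂ)) ∧
      A *ᵥ w = 0 := by
    intro w
    rw [hWd, Submodule.mem_inf, LinearMap.mem_ker, Matrix.toLin'_apply]
  have hW := SO_irr (F := ℂ) (i := i) (W := W) T.symm hB.bQ (Pool.Agent.W74.PG.det_ne T) (Big.card hB i)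
    (by rw [hWd]; exact inf_le_left) (fun t ht w hw => by
      rw [hmW] at hw ⊢
      refine ⟨mulVec_col ht.2.1 hw.1, ?_⟩
      rw [Matrix.mulVec_mulVec, hcomm t ht, ← Matrix.mulVec_mulVec, hw.2, Matrix.mulVec_zero])
  rcases hW with hW | hW
  · exfalso
    -- a product of two reflections
    obtain ⟨x0, hx0⟩ : ∃ x0 : Fin n, c x0 = i := by
      have h3 := Big.card hB i
      obtain ⟨x0, hx0⟩ := Finset.card_pos.1 (by omega : 0 < (Finset.univ.filter fun a => c a = i).card)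
      exact ⟨x0, (Finset.mem_filter.1 hx0).2⟩
    obtain ⟨b, hb, -, hbb⟩ := exists_orth (F := ℂ) hQs hQb hQd (Big.card hB i)
      (single_col (F := ℂ) hx0) (by
        intro h0
        have h1 := congrFun h0 x0
        rw [Pi.single_eq_same] at h1
        exact one_ne_zero h1)
    have hb0 : b ≠ 0 := by
      rintro rfl
      exact hbb (zero_dotProduct _)
    obtain ⟨a, ha, hab, haa⟩ := exists_orth (F := ℂ) hQs hQb hQd (Big.card hB i) hb hb0
    have ht := rr_SO (F := ℂ) (i := i) (a := b) (b := a) T.symm hB.bQ hb ha hbb haa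
    have hent := rr_entry hQb hb ha
    have htk : ∀ w ∈ (Pool.Agent.Y95.MT.col c k : Submodule ℂ (Fin n → ℂ)),
        (rf (T.Q.map (algebraMap ℚ ℂ)) b * rf (T.Q.map (algebraMap ℚ ℂ)) a) *ᵥ w = w := by
      intro w hw
      have h1 : (rf (T.Q.map (algebraMap ℚ ℂ)) b * rf (T.Q.map (algebraMap ℚ ℂ)) a) *ᵥ w =
          (1 : Matrix (Fin n) (Fin n) ℂ) *ᵥ w := by
        funext x
        rw [Matrix.mulVec, Matrix.mulVec, dotProduct, dotProduct]
        refine Finset.sum_congr rfl fun y _ => ?_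
        by_cases hy : c y = k
        · rw [hent x y fun h => hik (h.2.symm.trans hy)]
        · rw [hw y hy, mul_zero, mul_zero]
      rw [h1, Matrix.one_mulVec]
    have hAw : A *ᵥ b ∈ (Pool.Agent.Y95.MT.col c k : Submodule ℂ (Fin n → ℂ)) := by
      intro x hx
      rw [Matrix.mulVec, dotProduct]
      refine Finset.sum_eq_zero fun y _ => ?_
      have h1 : A x y = 0 := by
        by_contra h0
        exact hx (hA x y h0).1
      rw [h1, zero_mul]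
    have h2 := htk _ hAw
    rw [Matrix.mulVec_mulVec, ← hcomm _ ht, ← Matrix.mulVec_mulVec] at h2
    -- `t b = -b`
    have htb : (rf (T.Q.map (algebraMap ℚ ℂ)) b * rf (T.Q.map (algebraMap ℚ ℂ)) a) *ᵥ b = -b := by
      rw [← Matrix.mulVec_mulVec, rf_mulVec a, dotProduct_comm (_ *ᵥ a), bsymm hQs b a, hab,
        mul_zero, zero_smul, sub_zero, rf_mulVec, dotProduct_comm (_ *ᵥ b),
        div_mul_cancel₀ _ hbb, two_smul]
      abel
    rw [htb, Matrix.mulVec_neg] at h2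
    have h3 : A *ᵥ b = 0 := by
      have h4 : (2 : ℂ) • (A *ᵥ b) = 0 := by
        rw [two_smul]
        nth_rewrite 1 [← h2]
        exact neg_add_cancel _
      exact (smul_eq_zero.1 h4).resolve_left two_ne_zero
    have h4 : b ∈ W := (hmW b).2 ⟨hb, h3⟩
    rw [hW, Submodule.mem_bot] at h4
    exact hb0 h4
  · ext a b
    by_cases hb : c b = i
    · have h1 : (Pi.single b (1 : ℂ) : Fin n → ℂ) ∈ W := by
        rw [hW]
        exact single_col hb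
      have h2 := congrFun ((hmW _).1 h1).2 a
      rw [Matrix.mulVec_single_one] at h2
      exact h2
    · by_contra h0
      exact hb (hA a b h0).2

/-- **The Mumford-Tate conjecture for sums.** -/
theorem main_HT (hB : T.Big c p q) (hp2 : ∀ i, 2 ≤ p i) (hcop : ∀ i, Nat.Coprime (p i) (q i))
    (V : RHS κ)
    (hShimV : ∀ y ∈ lieMT V.h,
      V.X * (V.X * (V.X * y - y * V.X) - (V.X * y - y * V.X) * V.X) -
        (V.X * (V.X * y - y * V.X) - (V.X * y - y * V.X) * V.X) * V.X =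
        (4 : ℂ) • (V.X * y - y * V.X))
    (hg : GalT c T.Q β) {Xo : Matrix κ κ ℂ}
    {Do : Matrix (Fin n) (Fin n) ℂ} (hXD : dg Xo Do ∈ LieM (tot v β) j)
    (hD3 : Do * Do * Do = Do) (htr : ∀ i, ∑ a with c a = i, (Do * Do) a a = 2 * (p i : ℂ))
    (hShim : ∀ y ∈ LieM v j,
      Xo * (Xo * (Xo * y - y * Xo) - (Xo * y - y * Xo) * Xo) -
        (Xo * (Xo * y - y * Xo) - (Xo * y - y * Xo) * Xo) * Xo = Xo * y - y * Xo) :
    MTCj (hM V.h T) (tot v β) j ↔ MTCj V.h v j ∧ (∀ i, Irr c (Rj β j) i) ∧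
      ∀ i k, i ≠ k → NonIso c (Rj β j) i k := by
  have hx : fromBlocks 0 0 0 T.x ∈ LS (SH (hM V.h T)) := by
    refine star_V hB hp2 V.h_det (X_mem V T) fun y Z hy => ?_
    have h1 := hShimV y (lie_of_LS V.h_det hB.bQ hB.bx hy)
    have h2 : ∀ w : Matrix κ κ ℂ, (2 : ℂ)⁻¹ • V.X * w - w * (2 : ℂ)⁻¹ • V.X =
        (2 : ℂ)⁻¹ • (V.X * w - w * V.X) := by
      intro w
      rw [Matrix.smul_mul, Matrix.mul_smul, smul_sub]
    have h3 : ∀ w : Matrix κ κ ℂ, V.X * ((2 : ℂ)⁻¹ • w) - ((2 : ℂ)⁻¹ • w) * V.X =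
        (2 : ℂ)⁻¹ • (V.X * w - w * V.X) := by
      intro w
      rw [Matrix.smul_mul, Matrix.mul_smul, smul_sub]
    rw [h2, h2, h3, h2, h3, h3, h1]
    rw [smul_smul, smul_smul, smul_smul]
    congr 1
    norm_num
  have hso : (∀ i, Irr c (Rj β j) i) → (∀ i k, i ≠ k → NonIso c (Rj β j) i k) →
      ∀ Z : Matrix (Fin n) (Fin n) ℂ, Zᵀ * mC T.Q + mC T.Q * Z = 0 → BD c Z →
      dg (0 : Matrix κ κ ℂ) Z ∈ LS (IG (tot v β) j) := by
    intro hirr hiso Z hZ hZb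
    exact so_mon hB hp2 hcop hg hirr hiso (mem_LieM.1 hXD) hD3 htr
      (fun y hy => hShim y (mem_LieM.2 hy)) Z hZ hZb
  constructor
  · intro h
    have h1 := Irr_of_MTC hB V.h_det hx h
    have h2 := NonIso_of_MTC hB V.h_det hx h
    refine ⟨fun g hgd => ?_, h1, h2⟩
    have hd : (fromBlocks g 0 0 (1 : Matrix (Fin n) (Fin n) ℂ)).det ≠ 0 := by
      rw [fb_det, Matrix.det_one, mul_one]
      exact hgd
    have h3 := h _ hd
    rw [mon_prod hg hB.bQ (hso h1 h2), MT_iff hB V.h_det hx, Matrix.toBlocks_fromBlocks₁₁,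
      Matrix.toBlocks_fromBlocks₂₂] at h3
    have h4 : InSO c T.Q (1 : Matrix (Fin n) (Fin n) ℂ) := InSO_one _
    constructor
    · intro h5
      exact (h3.1 ⟨rfl, h5, h4⟩).2.1
    · intro h5
      exact (h3.2 ⟨rfl, h5, h4⟩).2.1
  · rintro ⟨h, h1, h2⟩ g hgd
    rw [mon_prod hg hB.bQ (hso h1 h2), MT_iff hB V.h_det hx]
    refine and_congr_right fun h3 => and_congr_left fun _ => ?_
    refine h _ fun h4 => hgd ?_
    rw [h3, fb_det, h4, zero_mul]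

end

end Q43.HTM
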