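import Mathlib
import Pool.Agent.Q43.HTM.MTC

/-!
# The Mumford-Tate conjecture for algebraic classes
-/

set_option autoImplicit false
set_option linter.unusedSectionVars false

open Finset Module

namespace Q43.HTM

open MvPolynomial Matrix Pool.Agent.W528.ZC Pool.Agent.W544.PG
open Pool.Agent.Y95.MT hiding col

noncomputable section

variable {ℓ : ℕ} [Fact ℓ.Prime] {κ : Type} [Fintype κ] [DecidableEq κ] {Γ : Type}
  [Group Γ] {v : Γ →* Matrix κ κ ℚ_[ℓ]} {j : ℚ_[ℓ] →+* ℂ}

theorem MTgroup_one : MTgroup (fun _ => (1 : Matrix κ κ ℂ)) ⊆ {1} := by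
  intro m hm
  refine hm {1} ⟨⟨{f | ∃ a b, f = X (a, b) - C ((1 : Matrix κ κ ℚ) a b)}, fun g => ?_⟩, rfl, ?_,
    ?_⟩ fun z _ => rfl
  · constructor
    · rintro rfl
      refine ⟨by simp, ?_⟩
      rintro _ ⟨a, b, rfl⟩
      unfold vQ
      rw [map_sub, aeval_X, aeval_C, Matrix.one_apply, Matrix.one_apply]
      split_ifs <;> simp
    · rintro ⟨-, h⟩
      ext a b
      have h2 := h _ ⟨a, b, rfl⟩
      unfold vQ at h2
      rw [map_sub, aeval_X, aeval_C, sub_eq_zero] at h2
      rw [h2, Matrix.one_apply, Matrix.one_apply]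
      split_ifs <;> simp
  · rintro a rfl b rfl
    simp
  · rintro a rfl
    simp

theorem MTCj_one (hv : (Set.range v).Finite) : MTCj (fun _ => (1 : Matrix κ κ ℂ)) v j := by
  intro g _
  constructor
  · intro h
    have hg : g = 1 := by
      ext a b
      have hfin : v.toHomUnits.ker.FiniteIndex := by
        have h2 : Finite v.toHomUnits.range := by
          have h3 : Set.MapsTo (fun u : (Matrix κ κ ℚ_[ℓ])ˣ => (u : Matrix κ κ ℚ_[ℓ]))
              (v.toHomUnits.range : Set (Matrix κ κ ℚ_[ℓ])ˣ) (Set.range v) := by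
            rintro _ ⟨s, rfl⟩
            exact ⟨s, (MonoidHom.coe_toHomUnits v s).symm⟩
          exact hv.of_injOn h3 (fun x _ y _ hxy => Units.ext hxy)
        infer_instance
      have h2 := h (X (a, b) - C ((1 : Matrix κ κ ℂ) a b))
        ⟨v.toHomUnits.ker, hfin, fun s hs => by
          rw [MonoidHom.mem_ker, Units.ext_iff, MonoidHom.coe_toHomUnits] at hs
          rw [hs, Units.val_one, Matrix.map_one _ (map_zero _) (map_one _), map_sub,
            Pool.Agent.W528.ZC.ev_X, Pool.Agent.W528.ZC.ev_C, sub_self]⟩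
      rw [map_sub, Pool.Agent.W528.ZC.ev_X, Pool.Agent.W528.ZC.ev_C, sub_eq_zero] at h2
      exact h2
    rw [hg]
    exact MT_one
  · intro h
    have h1 := MTgroup_one h
    rw [Set.mem_singleton_iff] at h1
    rw [h1]
    exact InZS_one

theorem RHS.h_of_types (V : RHS κ) (hV : V.types = {(0, 0)}) : V.h = fun _ => 1 := by
  funext z
  have h1 := V.sum
  unfold RHS.h
  rw [hV, Finset.sum_singleton] at h1 ⊢
  rw [h1]
  simp

theorem MTCj_types (V : RHS κ) (hV : V.types = {(0, 0)}) (hv : (Set.range v).Finite) :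
    MTCj V.h v j := by
  rw [RHS.h_of_types V hV]
  exact MTCj_one hv

end

end Q43.HTM
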